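import Pool.Agent.H92F.Fun
import Pool.Graph.R_seed8.W343.BSD.Stmt
import Pool.Graph.R_pool_sql_team_seeded_c8625f6e.K4H55.CX.Ab

/-!
# The L-function over a class field
-/

set_option autoImplicit false
set_option linter.unusedSectionVars false

namespace Pool.Agent.H92F

open Finset Polynomial FF
open Pool.Agent.W343.BSD
open Pool.Agent.H123R3.ZT

/-- the reciprocal zeros of `Q` are the `f`-th powers of those of `P` -/
def Pw (f : ℕ) (P Q : ℤ[X]) : Prop :=
  ∃ (n : ℕ) (α : Fin n → ℂ), P.map (Int.castRingHom ℂ) = ∏ i, (1 - C (α i) * X) ∧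
    Q.map (Int.castRingHom ℂ) = ∏ i, (1 - C (α i ^ f) * X)

/-- `1 - t^f` is the product of the `1 - ζ t` -/
lemma one_sub_pow_eq {f : ℕ} (hf : 0 < f) (t : ℂ) :
    ∏ ζ ∈ nthRootsFinset f (1 : ℂ), (1 - ζ * t) = 1 - t ^ f := by
  have h1 := (Complex.isPrimitiveRoot_exp f hf.ne').pow_sub_pow_eq_prod_sub_mul 1 t hf
  rw [one_pow] at h1
  exact h1.symm

lemma pw_eval {f : ℕ} (hf : 0 < f) {P Q : ℤ[X]} (h : Pw f P Q) (y : ℂ) :
    (Q.map (Int.castRingHom ℂ)).eval (y ^ f) =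
      ∏ ζ ∈ nthRootsFinset f (1 : ℂ), (P.map (Int.castRingHom ℂ)).eval (ζ * y) := by
  obtain ⟨n, α, h1, h2⟩ := h
  rw [h1, h2, eval_prod]
  simp only [eval_prod, eval_sub, eval_one, eval_mul, eval_C, eval_X]
  rw [Finset.prod_comm]
  refine Finset.prod_congr rfl fun i _ => ?_
  have h3 := one_sub_pow_eq hf (α i * y)
  rw [mul_pow] at h3
  rw [← h3]
  exact Finset.prod_congr rfl fun ζ _ => by ring

section grp

variable {ι X : Type} [CommGroup X] {T : X → Finset ι} {χ : X → ι → ℂ}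

lemma CGf.pow_ne (h : CGf T χ) {g : X} {v : ι} (hx : χ g v ≠ 0) (j : ℕ) : χ (g ^ j) v ≠ 0 := by
  induction j with
  | zero =>
    rw [pow_zero, h.one]
    exact one_ne_zero
  | succ j ih =>
    rw [pow_succ, h.mul _ _ v ih hx]
    exact mul_ne_zero ih hx

/-- the characters in `𝓕` which are unramified at `v` -/
def subv (h : CGf T χ) {e : ℕ} (he : 0 < e) (hX : ∀ g : X, g ^ e = 1) (𝓕 : Subgroup X) (v : ι) :
    Subgroup X where
  carrier := {g | g ∈ 𝓕 ∧ χ g v ≠ 0}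
  mul_mem' := by
    rintro a b ⟨ha, ha'⟩ ⟨hb, hb'⟩
    exact ⟨𝓕.mul_mem ha hb, by rw [h.mul a b v ha' hb']; exact mul_ne_zero ha' hb'⟩
  one_mem' := ⟨𝓕.one_mem, by rw [h.one]; exact one_ne_zero⟩
  inv_mem' := by
    rintro a ⟨ha, ha'⟩
    refine ⟨𝓕.inv_mem ha, ?_⟩
    have h1 : a⁻¹ = a ^ (e - 1) := by
      rw [inv_eq_iff_mul_eq_one, ← pow_succ', Nat.sub_add_cancel he, hX]
    rw [h1]
    exact h.pow_ne ha' _

/-- the values at `v` -/
noncomputable def evv (h : CGf T χ) {e : ℕ} (he : 0 < e) (hX : ∀ g : X, g ^ e = 1)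
    (𝓕 : Subgroup X) (v : ι) : subv h he hX 𝓕 v →* ℂ where
  toFun g := χ g v
  map_one' := h.one v
  map_mul' a b := h.mul _ _ v a.2.2 b.2.2

lemma prod_eval (h : CGf T χ) {e : ℕ} (he : 0 < e) (hX : ∀ g : X, g ^ e = 1) (𝓕 : Subgroup X)
    [Fintype 𝓕] (v : ι) {f : ℕ} (hf : f = Nat.card {z : ℂ // z ≠ 0 ∧ ∃ g ∈ 𝓕, χ g v = z}) :
    0 < f ∧ ∃ r : ℕ, r * f = Nat.card {g : 𝓕 // χ g v ≠ 0} ∧
      ∀ (P Q : ℤ[X]), P.coeff 0 = 1 → Pw f P Q → ∀ y : ℂ,
        ∏ g : 𝓕, (P.map (Int.castRingHom ℂ)).eval (χ g v * y) =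
          ((Q.map (Int.castRingHom ℂ)).eval (y ^ f)) ^ r := by
  classical
  have hfin : Finite (subv h he hX 𝓕 v) :=
    Finite.of_injective (fun g => (⟨g.1, g.2.1⟩ : 𝓕)) fun a b hab => by
      apply Subtype.ext
      have := congrArg (fun z : 𝓕 => z.1) hab
      exact this
  have : Fintype (subv h he hX 𝓕 v) := Fintype.ofFinite _
  obtain ⟨r, h1, h2, h3⟩ := Pool.Agent.K4H55.CX.prod_grp (evv h he hX 𝓕 v)
  have hcard : Nat.card (Set.range (evv h he hX 𝓕 v)) = f := by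
    rw [hf]
    refine Nat.card_congr (Equiv.subtypeEquivRight fun z => ?_)
    constructor
    · rintro ⟨g, rfl⟩
      exact ⟨g.2.2, g, g.2.1, rfl⟩
    · rintro ⟨hz, g, hg, hgz⟩
      exact ⟨⟨g, hg, by rw [hgz]; exact hz⟩, hgz⟩
  have hcard2 : Nat.card (subv h he hX 𝓕 v) = Nat.card {g : 𝓕 // χ g v ≠ 0} :=
    Nat.card_congr
      { toFun := fun g => ⟨⟨g.1, g.2.1⟩, g.2.2⟩
        invFun := fun g => ⟨g.1.1, g.1.2, g.2⟩
        left_inv := fun _ => rfl
        right_inv := fun _ => rfl }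
  rw [hcard] at h1 h2 h3
  rw [hcard2] at h1
  refine ⟨h2, r, h1, fun P Q hP hPQ y => ?_⟩
  have h4 : ∏ g : 𝓕, (P.map (Int.castRingHom ℂ)).eval (χ g v * y) =
      ∏ g : subv h he hX 𝓕 v, (P.map (Int.castRingHom ℂ)).eval (χ g v * y) := by
    have h5 : ∏ g : subv h he hX 𝓕 v, (P.map (Int.castRingHom ℂ)).eval (χ g v * y) =
        ∏ g ∈ (univ : Finset (subv h he hX 𝓕 v)).image (fun g => (⟨g.1, g.2.1⟩ : 𝓕)),
          (P.map (Int.castRingHom ℂ)).eval (χ g v * y) := by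
      rw [prod_image]
      intro a _ b _ hab
      apply Subtype.ext
      have := congrArg (fun z : 𝓕 => z.1) hab
      exact this
    rw [h5]
    symm
    refine prod_subset (subset_univ _) fun g _ hg => ?_
    have h6 : χ g v = 0 := by
      by_contra h7
      exact hg (mem_image.2 ⟨⟨g.1, g.2, h7⟩, mem_univ _, rfl⟩)
    rw [h6, zero_mul, ← coeff_zero_eq_eval_zero, Polynomial.coeff_map, hP, map_one]
  obtain ⟨n, α, a1, a2⟩ := hPQ
  rw [h4, a1, a2]
  simp only [eval_prod, eval_sub, eval_one, eval_mul, eval_C, eval_X]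
  rw [Finset.prod_comm, ← Finset.prod_pow]
  refine Finset.prod_congr rfl fun i _ => ?_
  have h5 := h3 (α i * y)
  rw [mul_pow] at h5
  rw [← h5]
  exact Finset.prod_congr rfl fun g _ => by
    show 1 - α i * (χ g v * y) = 1 - α i * y * χ g v
    ring

end grp

section places

variable {k K F : Type} [Field k] [Field K] [Algebra k K] [Field F] [Algebra k F] [Algebra K F]

/-- `w` lies over `v` -/
def Lies (w : Place k F) (v : Place k K) : Prop :=
  ∃ e : ℕ, 0 < e ∧ ∀ x : K, w.ord (algebraMap K F x) = e * v.ord x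

/-- the decomposition law -/
structure Law (k : Type) {K : Type} (F : Type) [Field k] [Field K] [Algebra k K] [Field F]
    [Algebra k F] [Algebra K F] {X : Type} [CommGroup X] (χ : X → Place k K → ℂ)
    (𝓕 : Subgroup X) : Prop where
  res : ∀ (v : Place k K) (w : Place k F), Lies w v → Nat.card (S.Res w) =
    Nat.card (S.Res v) ^ Nat.card {z : ℂ // z ≠ 0 ∧ ∃ g ∈ 𝓕, χ g v = z}
  num : ∀ v : Place k K, Nat.card {w : Place k F // Lies w v} *
    Nat.card {z : ℂ // z ≠ 0 ∧ ∃ g ∈ 𝓕, χ g v = z} = Nat.card {g : 𝓕 // χ g v ≠ 0}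

lemma res_card [Finite k] [IsFF k K] (v : Place k K) : Nat.card (S.Res v) = Nat.card k ^ v.deg :=
  Module.natCard_eq_pow_finrank (K := k) (V := v.RF)

variable [IsScalarTower k K F]

/-- the Euler product over the class field -/
theorem euler_cf [Finite k] [IsFF k K] [FiniteDimensional K F] {X : Type} [CommGroup X]
    {T : X → Finset (Place k K)} {χ : X → Place k K → ℂ} (hχ : CGf T χ) {e : ℕ} (he : 0 < e)
    (hX : ∀ g : X, g ^ e = 1) {𝓕 : Subgroup X} [Fintype 𝓕] (hL : Law k F χ 𝓕)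
    {P : Place k K → ℤ[X]} {P' : Place k F → ℤ[X]} (hP : ∀ v, (P v).coeff 0 = 1)
    (hP' : ∀ (v : Place k K) (w : Place k F) (f : ℕ), Lies w v →
      Nat.card (S.Res w) = Nat.card (S.Res v) ^ f → Pw f (P v) (P' w)) :
    eulerProd (fun w : Place k F => w.deg) (fun w => ((tw (P' w) 1 w.deg : ℂ[X]) :
      PowerSeries ℂ)) =
    ∏ g : 𝓕, eulerProd (fun v : Place k K => v.deg) (fun v => ((tw (P v) (χ g v) v.deg : ℂ[X]) :
      PowerSeries ℂ)) := by
  classical
  have hFF : IsFF k F := isFF_of_finite (K := K)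
  have hdK : ∀ v : Place k K, 0 < v.deg := fun v => Pool.Agent.H525R3.FFp.deg_pos v
  have hdL : ∀ v : Place k F, 0 < v.deg := fun v => Pool.Agent.H525R3.FFp.deg_pos v
  have hlt : 1 < Nat.card k := Finite.one_lt_card
  -- residue degrees
  have hdeg : ∀ (v : Place k K) (w : Place k F) (f : ℕ),
      Nat.card (S.Res w) = Nat.card (S.Res v) ^ f → w.deg = v.deg * f := by
    intro v w f h
    rw [res_card, res_card, ← pow_mul] at h
    exact Nat.pow_right_injective hlt h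
  have hfv : ∀ v : Place k K, 0 < Nat.card {z : ℂ // z ≠ 0 ∧ ∃ g ∈ 𝓕, χ g v = z} := fun v =>
    (prod_eval hχ he hX 𝓕 v rfl).1
  -- the fibres
  have hfinF : ∀ v : Place k K, {w : Place k F | Lies w v}.Finite := by
    intro v
    have h1 : 0 < Nat.card {g : 𝓕 // χ g v ≠ 0} := by
      have : Nonempty {g : 𝓕 // χ g v ≠ 0} := ⟨⟨1, by
        show χ 1 v ≠ 0
        rw [hχ.one]
        exact one_ne_zero⟩⟩
      exact Nat.card_pos
    have h2 : 0 < Nat.card {w : Place k F // Lies w v} := by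
      have h3 := hL.num v
      rw [← h3] at h1
      exact Nat.pos_of_mul_pos_right h1
    exact Set.finite_coe_iff.1 (Nat.finite_of_card_ne_zero h2.ne')
  have hcardF : ∀ v, (hfinF v).toFinset.card = Nat.card {w : Place k F // Lies w v} := fun v =>
    (Nat.card_eq_card_finite_toFinset (hfinF v)).symm
  have hmem : ∀ v w, w ∈ (hfinF v).toFinset ↔ Lies w v := fun v w =>
    Set.Finite.mem_toFinset (hfinF v)
  have huniq : ∀ (v v' : Place k K) (w : Place k F), Lies w v → Lies w v' → v = v' := by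
    rintro v v' w ⟨e1, h1⟩ ⟨e2, h2⟩
    exact over_unique_base (e := e1) (e' := e2) h1 h2
  have hbelow : ∀ w : Place k F, ∃ v : Place k K, Lies w v := by
    intro w
    obtain ⟨e, v, hv⟩ := exists_below (K := K) w
    exact ⟨v, e, hv⟩
  have hcoef : ∀ w, (P' w).coeff 0 = 1 := by
    intro w
    obtain ⟨v, hv⟩ := hbelow w
    obtain ⟨n, α, -, h2⟩ := hP' v w _ hv (hL.res v w hv)
    have h3 : ((P' w).map (Int.castRingHom ℂ)).coeff 0 = 1 := by
      rw [h2, coeff_zero_eq_eval_zero, eval_prod]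
      refine Finset.prod_eq_one fun i _ => ?_
      simp
    rw [Polynomial.coeff_map, eq_intCast] at h3
    exact_mod_cast h3
  have h1 := eulerProd_prod (R := ℂ) (d := fun v : Place k K => v.deg) (fun n => places_fin n)
    (univ : Finset 𝓕) (fun g v => ((tw (P v) (χ g v) v.deg : ℂ[X]) : PowerSeries ℂ))
    fun g v => tw_mod (hP v) _ (hdK v).ne'
  have h2 := eulerProd_fiber (R := ℂ) (d := fun v : Place k K => v.deg)
    (d' := fun w : Place k F => w.deg) (fun n => places_fin n) (fun n => places_fin n)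
    (f' := fun w => ((tw (P' w) 1 w.deg : ℂ[X]) : PowerSeries ℂ))
    (fun w => tw_mod (hcoef w) _ (hdL w).ne') (fun v => (hfinF v).toFinset)
    (fun w => by
      obtain ⟨v, hv⟩ := hbelow w
      exact ⟨v, (hmem v w).2 hv⟩)
    (fun v v' w hv hv' => huniq v v' w ((hmem v w).1 hv) ((hmem v' w).1 hv'))
    (fun v w hw => by
      have h3 := (hmem v w).1 hw
      have h4 := hdeg v w _ (hL.res v w h3)
      show v.deg ≤ w.deg
      rw [h4]
      exact Nat.le_mul_of_pos_right _ (hfv v))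
  rw [← h1, ← h2]
  congr 1
  funext v
  have hc1 : ∏ w ∈ (hfinF v).toFinset, ((tw (P' w) 1 w.deg : ℂ[X]) : PowerSeries ℂ) =
      ((∏ w ∈ (hfinF v).toFinset, tw (P' w) 1 w.deg : ℂ[X]) : PowerSeries ℂ) :=
    (map_prod (Polynomial.coeToPowerSeries.ringHom (R := ℂ)) _ _).symm
  have hc2 : ∏ g : 𝓕, ((tw (P v) (χ g v) v.deg : ℂ[X]) : PowerSeries ℂ) =
      ((∏ g : 𝓕, tw (P v) (χ g v) v.deg : ℂ[X]) : PowerSeries ℂ) :=
    (map_prod (Polynomial.coeToPowerSeries.ringHom (R := ℂ)) _ _).symm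
  rw [hc1, hc2]
  congr 1
  refine Polynomial.funext fun x => ?_
  rw [eval_prod, eval_prod]
  simp only [eval_tw, one_mul]
  obtain ⟨hf0, r, hr1, hr2⟩ := prod_eval hχ he hX 𝓕 v rfl
  set f := Nat.card {z : ℂ // z ≠ 0 ∧ ∃ g ∈ 𝓕, χ g v = z} with hf
  have hcard : (hfinF v).toFinset.card = r := by
    rw [hcardF]
    have h3 := hL.num v
    rw [← hr1] at h3
    exact Nat.eq_of_mul_eq_mul_right hf0 h3
  have hw : ∀ w ∈ (hfinF v).toFinset, Pw f (P v) (P' w) ∧ w.deg = v.deg * f := by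
    intro w hw
    have h3 : Lies w v := (hmem v w).1 hw
    have h4 := hL.res v w h3
    exact ⟨hP' v w f h3 h4, hdeg v w f h4⟩
  have h5 : ∀ w ∈ (hfinF v).toFinset, ((P' w).map (Int.castRingHom ℂ)).eval (x ^ w.deg) =
      ∏ ζ ∈ nthRootsFinset f (1 : ℂ), ((P v).map (Int.castRingHom ℂ)).eval (ζ * x ^ v.deg) := by
    intro w hw'
    obtain ⟨h6, h7⟩ := hw w hw'
    rw [h7, pow_mul, pw_eval hf0 h6]
  rw [Finset.prod_congr rfl h5, Finset.prod_const, hcard]
  rcases Nat.eq_zero_or_pos r with hr0 | hr0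
  · exfalso
    rw [hr0, zero_mul] at hr1
    have : Nonempty {g : 𝓕 // χ g v ≠ 0} := ⟨⟨1, by
      show χ 1 v ≠ 0
      rw [hχ.one]
      exact one_ne_zero⟩⟩
    have h8 : 0 < Nat.card {g : 𝓕 // χ g v ≠ 0} := Nat.card_pos
    omega
  · obtain ⟨w0, hw0⟩ : (hfinF v).toFinset.Nonempty := by
      rw [← Finset.card_pos, hcard]
      exact hr0
    rw [hr2 (P v) (P' w0) (hP v) (hw w0 hw0).1, pw_eval hf0 (hw w0 hw0).1]

end places

end Pool.Agent.H92F
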