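import Mathlib
import Pool.Graph.R_seed8.W343.BSD.Euler

/-!
# Twisted Euler products as power series, and their values
-/

set_option autoImplicit false
set_option linter.unusedSectionVars false

namespace Pool.Agent.H92F

open Finset Polynomial
open Pool.Agent.W343.BSD

/-- `P(z X^n)` -/
noncomputable def tw (P : ℤ[X]) (z : ℂ) (n : ℕ) : ℂ[X] :=
  (P.map (Int.castRingHom ℂ)).comp (C z * X ^ n)

/-- `A(z X^n)`, for power series -/
noncomputable def tws (n : ℕ) (hn : n ≠ 0) (z : ℂ) : PowerSeries ℤ →+* PowerSeries ℂ :=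
  (PowerSeries.expand n hn : PowerSeries ℂ →ₐ[ℂ] PowerSeries ℂ).toRingHom.comp
    ((PowerSeries.rescale z).comp (PowerSeries.map (Int.castRingHom ℂ)))

lemma coeff_tws (n : ℕ) (hn : n ≠ 0) (z : ℂ) (A : PowerSeries ℤ) (k : ℕ) :
    PowerSeries.coeff k (tws n hn z A) =
      if n ∣ k then z ^ (k / n) * ((PowerSeries.coeff (k / n) A : ℤ) : ℂ) else 0 := by
  show PowerSeries.coeff k (PowerSeries.expand n hn
    (PowerSeries.rescale z (PowerSeries.map (Int.castRingHom ℂ) A))) = _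
  rw [PowerSeries.coeff_expand]
  split_ifs
  · rw [PowerSeries.coeff_rescale, PowerSeries.coeff_map]
    rfl
  · rfl

lemma tw_eq (P : ℤ[X]) (z : ℂ) (n : ℕ) :
    tw P z n = expand ℂ n ((P.map (Int.castRingHom ℂ)).comp (C z * X)) := by
  unfold tw
  rw [expand_eq_comp_X_pow, comp_assoc]
  congr 1
  rw [mul_comp, C_comp, X_comp]

lemma tw_coe (P : ℤ[X]) (z : ℂ) {n : ℕ} (hn : n ≠ 0) :
    ((tw P z n : ℂ[X]) : PowerSeries ℂ) = tws n hn z (P : PowerSeries ℤ) := by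
  ext k
  rw [coeff_tws, Polynomial.coeff_coe, tw_eq, Polynomial.coeff_expand (Nat.pos_of_ne_zero hn)]
  split_ifs
  · rw [comp_C_mul_X_coeff, Polynomial.coeff_map, Polynomial.coeff_coe, mul_comm]
    rfl
  · rfl

lemma tw_zero {P : ℤ[X]} (hP : P.coeff 0 = 1) (n : ℕ) : tw P 0 n = 1 := by
  unfold tw
  rw [map_zero, zero_mul, comp_zero, ← coeff_zero_eq_eval_zero, Polynomial.coeff_map, hP, map_one,
    map_one]

lemma tw_mod {P : ℤ[X]} (hP : P.coeff 0 = 1) (z : ℂ) {n : ℕ} (hn : n ≠ 0) :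
    (PowerSeries.X : PowerSeries ℂ) ^ n ∣ ((tw P z n : ℂ[X]) : PowerSeries ℂ) - 1 := by
  rw [tw_coe P z hn, PowerSeries.X_pow_dvd_iff]
  intro m hm
  rw [map_sub, coeff_tws, PowerSeries.coeff_one]
  by_cases h0 : m = 0
  · subst h0
    rw [if_pos (dvd_zero _), if_pos rfl, Nat.zero_div, pow_zero, one_mul, Polynomial.coeff_coe, hP,
      Int.cast_one, sub_self]
  · rw [if_neg h0, if_neg (fun h => absurd (Nat.le_of_dvd (Nat.pos_of_ne_zero h0) h) (by omega)),
      sub_zero]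

lemma natDegree_tw_le (P : ℤ[X]) (z : ℂ) (n : ℕ) {D : ℕ} (hD : P.natDegree ≤ D) :
    (tw P z n).natDegree ≤ D * n := by
  unfold tw
  refine natDegree_comp_le.trans ?_
  refine Nat.mul_le_mul (natDegree_map_le.trans hD) ?_
  exact (natDegree_C_mul_le _ _).trans (natDegree_X_pow_le n)

lemma eval_tw (P : ℤ[X]) (z x : ℂ) (n : ℕ) :
    (tw P z n).eval x = (P.map (Int.castRingHom ℂ)).eval (z * x ^ n) := by
  unfold tw
  rw [eval_comp]
  simp

/-- the inverse power series -/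
noncomputable def inv' (P : ℤ[X]) : PowerSeries ℤ := PowerSeries.invOfUnit (P : PowerSeries ℤ) 1

lemma mul_inv' {P : ℤ[X]} (hP : P.coeff 0 = 1) : (P : PowerSeries ℤ) * inv' P = 1 := by
  refine PowerSeries.mul_invOfUnit _ _ ?_
  rw [← PowerSeries.coeff_zero_eq_constantCoeff_apply, Polynomial.coeff_coe, hP]
  rfl

lemma tw_mul_inv {P : ℤ[X]} (hP : P.coeff 0 = 1) (z : ℂ) {n : ℕ} (hn : n ≠ 0) :
    ((tw P z n : ℂ[X]) : PowerSeries ℂ) * tws n hn z (inv' P) = 1 := by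
  rw [tw_coe P z hn, ← map_mul, mul_inv' hP, map_one]

section prod

variable {ι : Type} {dg : ι → ℕ} (hpos : ∀ v, dg v ≠ 0) (hfin : ∀ n, {v | dg v ≤ n}.Finite)
  {P : ι → ℤ[X]} (hP : ∀ v, (P v).coeff 0 = 1) {χ : ι → ℂ} {L : ℂ[X]}

open Classical in
include hpos hfin hP in
/-- the coefficients of an imprimitive Euler product -/
theorem coeff_impr
    (hL : (L : PowerSeries ℂ) * eulerProd dg (fun v => ((tw (P v) (χ v) (dg v) : ℂ[X]) :
      PowerSeries ℂ)) = 1) {T0 T' : Finset ι} (hT0 : ∀ v ∈ T0, χ v = 0) (hT : T0 ⊆ T') (N : ℕ)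
    {k : ℕ} (hk : k ≤ N) :
    (L * ∏ v ∈ T' \ T0, tw (P v) (χ v) (dg v)).coeff k =
      PowerSeries.coeff k (∏ v ∈ (hfin N).toFinset \ T', tws (dg v) (hpos v) (χ v) (inv' (P v))) := by
  set S := (hfin N).toFinset \ T' with hS
  set f : ι → PowerSeries ℂ := fun v => ((tw (P v) (χ v) (dg v) : ℂ[X]) : PowerSeries ℂ) with hf
  have hmod : ∀ v, (PowerSeries.X : PowerSeries ℂ) ^ dg v ∣ f v - 1 := fun v =>
    tw_mod (hP v) (χ v) (hpos v)
  -- the product over a large set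
  have h1 : (PowerSeries.X : PowerSeries ℂ) ^ (N + 1) ∣
      (L : PowerSeries ℂ) * ∏ v ∈ S ∪ T', f v - 1 := by
    have h2 := eulerProd_mod hfin hmod N (S ∪ T') (fun v hv => by
      by_cases h3 : v ∈ T'
      · exact mem_union_right _ h3
      · refine mem_union_left _ ?_
        rw [hS, mem_sdiff, Set.Finite.mem_toFinset]
        exact ⟨hv, h3⟩)
    have h3 := h2.mul_left (L : PowerSeries ℂ)
    rw [mul_sub, hL] at h3
    exact mod_symm h3
  have hdis : Disjoint S T' := sdiff_disjoint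
  rw [prod_union hdis] at h1
  have h4 : ∏ v ∈ T', f v = ∏ v ∈ T' \ T0, f v := by
    symm
    refine prod_subset sdiff_subset fun v hv hv' => ?_
    have h5 : v ∈ T0 := by
      by_contra h6
      exact hv' (mem_sdiff.2 ⟨hv, h6⟩)
    simp only [hf]
    rw [hT0 v h5, tw_zero (hP v), Polynomial.coe_one]
  rw [h4] at h1
  set G : PowerSeries ℂ := ∏ v ∈ S, tws (dg v) (hpos v) (χ v) (inv' (P v)) with hG
  have h5 : (∏ v ∈ S, f v) * G = 1 := by
    rw [hG, ← prod_mul_distrib]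
    exact prod_eq_one fun v _ => tw_mul_inv (hP v) (χ v) (hpos v)
  have h6 : ((L * ∏ v ∈ T' \ T0, tw (P v) (χ v) (dg v) : ℂ[X]) : PowerSeries ℂ) =
      (L : PowerSeries ℂ) * ∏ v ∈ T' \ T0, f v := by
    rw [Polynomial.coe_mul]
    congr 1
    exact map_prod (Polynomial.coeToPowerSeries.ringHom (R := ℂ)) _ _
  rw [← Polynomial.coeff_coe, h6]
  have h7 : (PowerSeries.X : PowerSeries ℂ) ^ (N + 1) ∣
      (L : PowerSeries ℂ) * ∏ v ∈ T' \ T0, f v - G := by
    have h8 := h1.mul_right G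
    have h9 : ((L : PowerSeries ℂ) * ((∏ v ∈ S, f v) * ∏ v ∈ T' \ T0, f v) - 1) * G =
        (L : PowerSeries ℂ) * ∏ v ∈ T' \ T0, f v - G := by
      linear_combination ((L : PowerSeries ℂ) * ∏ v ∈ T' \ T0, f v) * h5
    rwa [h9] at h8
  have h8 := PowerSeries.X_pow_dvd_iff.1 h7 k (by omega)
  rwa [map_sub, sub_eq_zero] at h8

end prod

end Pool.Agent.H92F
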