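import Pool.Agent.H92F.Tow2

/-!
# The explicit bound for the first block
-/

set_option autoImplicit false
set_option linter.unusedSectionVars false

namespace Pool.Agent.H92F

open Finset Polynomial
open Pool.Agent.W343.BSD
open Pool.Agent.Y683.CG
open Pool.Agent.H92 Pool.Agent.H92P

section divis

/-- the root of unity as an algebraic integer -/
def rt {e : ℕ} (he : 0 < e) {ζ : ℂ} (h : ζ ^ e = 1) : integralClosure ℤ ℂ := ⟨ζ, root_int he h⟩

lemma one_sub_dvd {e : ℕ} (he : 0 < e) {ζ ξ : integralClosure ℤ ℂ} (hζ : (ζ : ℂ) ^ e = 1)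
    (hξ : IsPrimitiveRoot (ξ : ℂ) e) : 1 - ξ ∣ 1 - ζ := by
  have : NeZero e := ⟨he.ne'⟩
  obtain ⟨a, -, ha⟩ := hξ.eq_pow_of_pow_eq_one hζ
  have h1 : ζ = ξ ^ a := Subtype.ext (by push_cast; exact ha.symm)
  rw [h1]
  exact one_sub_dvd_one_sub_pow ξ a

lemma prod_dvd_prod' {e : ℕ} (he : 0 < e) {ζ : ℕ → integralClosure ℤ ℂ}
    (hζ : ∀ j, (ζ j : ℂ) ^ e = 1) (s : Finset ℕ) : ∀ R : Finset (integralClosure ℤ ℂ),
    (∀ ξ ∈ R, IsPrimitiveRoot (ξ : ℂ) e) → R.card = s.card →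
    ∏ ξ ∈ R, (1 - ξ) ∣ ∏ j ∈ s, (1 - ζ j) := by
  classical
  induction s using Finset.induction_on with
  | empty =>
    intro R _ hc
    rw [card_empty, card_eq_zero] at hc
    rw [hc, prod_empty, prod_empty]
  | insert j s hj ih =>
    intro R hR hc
    rw [card_insert_of_notMem hj] at hc
    obtain ⟨ξ, hξ⟩ := card_pos.1 (by omega : 0 < R.card)
    rw [← insert_erase hξ, prod_insert (notMem_erase ξ R), prod_insert hj]
    refine mul_dvd_mul (one_sub_dvd he (hζ j) (hR ξ hξ)) (ih _ (fun x hx => hR x (mem_of_mem_erase hx))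
      ?_)
    rw [card_erase_of_mem hξ]
    omega

lemma prod_prim {l b : ℕ} (hl : l.Prime) (hb : 0 < b) : ∃ R : Finset (integralClosure ℤ ℂ),
    (∀ ξ ∈ R, IsPrimitiveRoot (ξ : ℂ) (l ^ b)) ∧ R.card = (l ^ b).totient ∧
    ∏ ξ ∈ R, (1 - ξ) = (l : integralClosure ℤ ℂ) := by
  classical
  have : Fact l.Prime := ⟨hl⟩
  have he : 0 < l ^ b := pow_pos hl.pos b
  set R : Finset (integralClosure ℤ ℂ) := (primitiveRoots (l ^ b) ℂ).attach.image fun ξ =>
    (⟨ξ.1, root_int he ((mem_primitiveRoots he).1 ξ.2).pow_eq_one⟩ : integralClosure ℤ ℂ) with hR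
  have hinj : Set.InjOn (fun ξ : {x // x ∈ primitiveRoots (l ^ b) ℂ} =>
      (⟨ξ.1, root_int he ((mem_primitiveRoots he).1 ξ.2).pow_eq_one⟩ : integralClosure ℤ ℂ))
      ((primitiveRoots (l ^ b) ℂ).attach : Set {x // x ∈ primitiveRoots (l ^ b) ℂ}) := by
    intro x _ y _ h
    exact Subtype.ext (congrArg (fun z : integralClosure ℤ ℂ => (z : ℂ)) h)
  refine ⟨R, ?_, ?_, ?_⟩
  · intro ξ hξ
    obtain ⟨x, -, rfl⟩ := mem_image.1 hξ
    exact (mem_primitiveRoots he).1 x.2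
  · rw [hR, card_image_of_injOn hinj, card_attach, Complex.card_primitiveRoots]
  · apply Subtype.ext
    have h1 : ((∏ ξ ∈ R, (1 - ξ) : integralClosure ℤ ℂ) : ℂ) =
        ∏ ξ ∈ primitiveRoots (l ^ b) ℂ, (1 - ξ) := by
      rw [hR, prod_image hinj]
      push_cast
      exact prod_attach (primitiveRoots (l ^ b) ℂ) fun x => 1 - x
    rw [h1]
    obtain ⟨b', rfl⟩ : ∃ b', b = b' + 1 := ⟨b - 1, by omega⟩
    have h2 := eval_one_cyclotomic_prime_pow (R := ℂ) (p := l) b'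
    have h3 : cyclotomic (l ^ (b' + 1)) ℂ = cyclotomic' (l ^ (b' + 1)) ℂ := by
      rw [← map_cyclotomic_int, (int_cyclotomic_spec (l ^ (b' + 1))).1]
    rw [h3, cyclotomic', eval_prod] at h2
    simp only [eval_sub, eval_X, eval_C] at h2
    rw [h2]
    push_cast
    rfl

/-- the product of `K φ(l^b) + 1` differences -/
lemma prod_div {l b : ℕ} (hl : l.Prime) {𝔪 : Ideal (integralClosure ℤ ℂ)} (hp : 𝔪.IsPrime)
    (h2 : (l : integralClosure ℤ ℂ) ∈ 𝔪) {ζ : ℕ → integralClosure ℤ ℂ}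
    (hζ : ∀ j, (ζ j : ℂ) ^ l ^ b = 1) (K : ℕ) :
    ∃ z ∈ 𝔪, ∏ j ∈ range (K * (l ^ b).totient + 1), (1 - ζ j) = (l : integralClosure ℤ ℂ) ^ K * z := by
  classical
  have hlast : ∀ j, 1 - ζ j ∈ 𝔪 := by
    intro j
    have h3 := lam_powp hl 𝔪 hp h2 b (ζ j) (Subtype.ext (by push_cast; exact hζ j))
    have h4 := 𝔪.neg_mem h3
    rwa [neg_sub] at h4
  rcases Nat.eq_zero_or_pos b with hb | hb
  · refine ⟨0, 𝔪.zero_mem, ?_⟩
    rw [mul_zero]
    refine prod_eq_zero (mem_range.2 (Nat.succ_pos _) : 0 ∈ range _) ?_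
    have h3 := hζ 0
    rw [hb, pow_zero, pow_one] at h3
    rw [sub_eq_zero]
    exact Subtype.ext h3.symm
  · obtain ⟨R, hR1, hR2, hR3⟩ := prod_prim hl hb
    have hK : ∀ K : ℕ, (l : integralClosure ℤ ℂ) ^ K ∣
        ∏ j ∈ range (K * (l ^ b).totient), (1 - ζ j) := by
      intro K
      induction K with
      | zero =>
        rw [pow_zero]
        exact one_dvd _
      | succ K ih =>
        have h3 : ∏ j ∈ range ((K + 1) * (l ^ b).totient), (1 - ζ j) =
            (∏ j ∈ range (K * (l ^ b).totient), (1 - ζ j)) *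
              ∏ j ∈ range (l ^ b).totient, (1 - ζ (K * (l ^ b).totient + j)) := by
          rw [Nat.succ_mul, prod_range_add]
        rw [h3, pow_succ]
        refine mul_dvd_mul ih ?_
        have h4 := prod_dvd_prod' (pow_pos hl.pos b) (ζ := fun j => ζ (K * (l ^ b).totient + j))
          (fun j => hζ _) (range (l ^ b).totient) R hR1 (by rw [hR2, card_range])
        rwa [hR3] at h4
    obtain ⟨w, hw⟩ := hK K
    refine ⟨w * (1 - ζ (K * (l ^ b).totient)), 𝔪.mul_mem_left _ (hlast _), ?_⟩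
    rw [prod_range_succ, hw, mul_assoc]

end divis

section csum

variable {X' : Type} [CommGroup X']

/-- sums of characters of a subgroup with integral weights -/
def CSum (H : Subgroup X') (f : X' → ℂ) : Prop :=
  ∃ (U : Type) (_ : Fintype U) (w : U → ℤ) (ψ : U → (H →* ℂ)), ∀ g : H,
    f g = ∑ u, (w u : ℂ) * ψ u g

lemma CSum.mul {H : Subgroup X'} {f f' : X' → ℂ} (h : CSum H f) (h' : CSum H f') :
    CSum H (fun g => f g * f' g) := by
  obtain ⟨U, i1, w, ψ, h1⟩ := h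
  obtain ⟨U', i2, w', ψ', h2⟩ := h'
  refine ⟨U × U', inferInstance, fun u => w u.1 * w' u.2, fun u => ψ u.1 * ψ' u.2, fun g => ?_⟩
  beta_reduce
  rw [h1, h2, Fintype.sum_mul_sum, Fintype.sum_prod_type]
  refine Finset.sum_congr rfl fun u _ => Finset.sum_congr rfl fun u' _ => ?_
  rw [MonoidHom.mul_apply]
  push_cast
  ring

lemma csum_one (H : Subgroup X') : CSum H (fun _ => 1) :=
  ⟨Unit, inferInstance, fun _ => 1, fun _ => 1, fun g => by simp⟩

lemma CSum.prod {H : Subgroup X'} {J : Type} (s : Finset J) (f : J → X' → ℂ)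
    (h : ∀ i ∈ s, CSum H (f i)) : CSum H (fun g => ∏ i ∈ s, f i g) := by
  classical
  induction s using Finset.induction_on with
  | empty =>
    simp only [prod_empty]
    exact csum_one H
  | insert i s hi ih =>
    simp only [prod_insert hi]
    exact (h i (mem_insert_self i s)).mul (ih fun j hj => h j (mem_insert_of_mem hj))

/-- the sum over the subsets -/
lemma CSum.key {l b : ℕ} (hl : l.Prime) {𝔪 : Ideal (integralClosure ℤ ℂ)} (hp : 𝔪.IsPrime)
    (h2 : (l : integralClosure ℤ ℂ) ∈ 𝔪) {H : Subgroup X'} {f : X' → ℂ} (h : CSum H f)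
    (hX : ∀ x : X', x ^ l ^ b = 1) (K : ℕ) {g : ℕ → X'} (hg : ∀ j, g j ∈ H)
    (hbad : ∀ S : Finset ℕ, S.Nonempty → S ⊆ range (K * (l ^ b).totient + 1) →
      f (∏ j ∈ S, g j) = 0) :
    ∃ z ∈ 𝔪, f 1 = (l : ℂ) ^ K * (z : integralClosure ℤ ℂ) := by
  classical
  have he : 0 < l ^ b := pow_pos hl.pos b
  obtain ⟨U, i1, w, ψ, h1⟩ := h
  set g' : ℕ → H := fun j => ⟨g j, hg j⟩ with hg'
  set N := K * (l ^ b).totient + 1 with hN
  have hψ : ∀ u j, (ψ u (g' j)) ^ l ^ b = 1 := by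
    intro u j
    rw [← map_pow]
    have h3 : g' j ^ l ^ b = 1 := Subtype.ext (hX _)
    rw [h3, map_one]
  choose z hz1 hz2 using fun u => prod_div hl hp h2
    (ζ := fun j => (⟨ψ u (g' j), root_int he (hψ u j)⟩ : integralClosure ℤ ℂ)) (fun j => hψ u j) K
  refine ⟨∑ u, (w u : integralClosure ℤ ℂ) * z u, 𝔪.sum_mem fun u _ => 𝔪.mul_mem_left _ (hz1 u),
    ?_⟩
  have hz3 : ∀ u, ∏ j ∈ range N, (1 - ψ u (g' j)) = (l : ℂ) ^ K * (z u : integralClosure ℤ ℂ) := by
    intro u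
    have h3 := congrArg (fun x : integralClosure ℤ ℂ => (x : ℂ)) (hz2 u)
    push_cast at h3
    exact h3
  have hS : ∀ S : Finset ℕ, f (∏ j ∈ S, g j) = ∑ u, (w u : ℂ) * ∏ j ∈ S, ψ u (g' j) := by
    intro S
    have h3 := h1 (∏ j ∈ S, g' j)
    have h4 : ((∏ j ∈ S, g' j : H) : X') = ∏ j ∈ S, g j := by
      rw [Subgroup.val_finsetProd]
    rw [h4] at h3
    rw [h3]
    simp only [map_prod]
  have h5 : ∑ S ∈ (range N).powerset, (-1 : ℂ) ^ S.card * f (∏ j ∈ S, g j) = f 1 := by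
    rw [Finset.sum_eq_single ∅]
    · rw [card_empty, pow_zero, one_mul, prod_empty]
    · intro S hS1 hS2
      rw [hbad S (nonempty_iff_ne_empty.2 hS2) (mem_powerset.1 hS1), mul_zero]
    · intro h6
      exact absurd (empty_mem_powerset _) h6
  have h6 : ∑ S ∈ (range N).powerset, (-1 : ℂ) ^ S.card * f (∏ j ∈ S, g j) =
      ∑ u, (w u : ℂ) * ∏ j ∈ range N, (1 - ψ u (g' j)) := by
    have h7 : ∀ u, ∏ j ∈ range N, (1 - ψ u (g' j)) =
        ∑ S ∈ (range N).powerset, (-1 : ℂ) ^ S.card * ∏ j ∈ S, ψ u (g' j) := by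
      intro u
      have h8 : ∏ j ∈ range N, (1 - ψ u (g' j)) = ∏ j ∈ range N, (1 + -ψ u (g' j)) :=
        prod_congr rfl fun j _ => sub_eq_add_neg _ _
      rw [h8, Finset.prod_one_add]
      refine Finset.sum_congr rfl fun S _ => ?_
      rw [Finset.prod_neg]
    simp only [hS, h7, Finset.mul_sum]
    rw [Finset.sum_comm]
    refine Finset.sum_congr rfl fun u _ => Finset.sum_congr rfl fun S _ => ?_
    ring
  rw [← h5, h6]
  push_cast
  rw [Finset.mul_sum]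
  refine Finset.sum_congr rfl fun u _ => ?_
  rw [hz3]
  ring

end csum

section main

variable {ι : Type} {dg : ι → ℕ} {X' : Type} [CommGroup X'] {T : X' → Finset ι}
  {χ : X' → ι → ℂ}

lemma T_pow [DecidableEq ι] (hχ : CGf T χ) (g : X') (k : ℕ) : T (g ^ k) ⊆ T g := by
  induction k with
  | zero =>
    rw [pow_zero, hχ.T1]
    exact empty_subset _
  | succ k ih =>
    rw [pow_succ]
    exact (hχ.supp _ _).trans (union_subset ih (Subset.refl _))

lemma T_closure [DecidableEq ι] (hχ : CGf T χ) {e : ℕ} (he : 0 < e) (hX : ∀ g : X', g ^ e = 1)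
    {A : Set X'} {T' : Finset ι} (hA : ∀ a ∈ A, T a ⊆ T') :
    ∀ g ∈ Subgroup.closure A, T g ⊆ T' := by
  intro g hg
  refine Subgroup.closure_induction (p := fun x _ => T x ⊆ T') (fun x hx => hA x hx) ?_ ?_ ?_ hg
  · rw [hχ.T1]
    exact empty_subset _
  · intro x y _ _ hx hy
    exact (hχ.supp x y).trans (union_subset hx hy)
  · intro x _ hx
    have h1 : x⁻¹ = x ^ (e - 1) := by
      rw [inv_eq_iff_mul_eq_one, ← pow_succ', Nat.sub_add_cancel he, hX]
    rw [h1]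
    exact (T_pow hχ x _).trans hx

/-- the evaluation at a place -/
noncomputable def evH (hχ : CGf T χ) (H : Subgroup X') (v : ι) (hv : ∀ g ∈ H, v ∉ T g) :
    H →* ℂ where
  toFun g := χ g v
  map_one' := hχ.one v
  map_mul' a b := hχ.mul _ _ v (fun h => hv a a.2 ((hχ.zero _ v).1 h))
    (fun h => hv b b.2 ((hχ.zero _ v).1 h))

lemma csum_local (hχ : CGf T χ) (H : Subgroup X') (e : ℕ) (v : ι) (hv : ∀ g ∈ H, v ∉ T g) :
    CSum H (fun g => ∑ a ∈ range e, χ g v ^ a) := by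
  refine ⟨Fin e, inferInstance, fun _ => 1, fun a => (evH hχ H v hv) ^ (a : ℕ), fun g => ?_⟩
  beta_reduce
  rw [Finset.sum_range]
  refine Finset.sum_congr rfl fun a _ => ?_
  rw [MonoidHom.pow_apply]
  push_cast
  rw [one_mul]
  rfl

open Classical in
lemma csum_vj {P : ι → ℤ[X]} {q c D : ℕ} {L : X' → ℂ[X]} (hpos : ∀ v, dg v ≠ 0)
    (hfin : ∀ n, {v | dg v ≤ n}.Finite) (hq : 0 < q) (hP : ∀ v, (P v).coeff 0 = 1)
    (hD : ∀ v, (P v).natDegree ≤ D) (hχ : CGf T χ)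
    (hL : ∀ g, (L g : PowerSeries ℂ) * eulerProd dg (fun v =>
      ((tw (P v) (χ g v) (dg v) : ℂ[X]) : PowerSeries ℂ)) = 1)
    (hdeg : ∀ g, (L g).natDegree ≤ c + D * ∑ v ∈ T g, dg v) {H : Subgroup X'} {T' : Finset ι}
    (hT : ∀ g ∈ H, T g ⊆ T') (j : ℕ) :
    CSum H (fun g => vj dg P q c D T χ L j T' g) := by
  have hev : ∀ v, v ∉ T' → ∀ g ∈ H, v ∉ T g := fun v hv g hg h => hv (hT g hg h)
  refine ⟨sF dg hfin c D T', inferInstance, fun u => wj dg hfin P q c D j T' u.1, fun u =>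
    ∏ v ∈ ((hfin (NN dg c D T')).toFinset \ T').attach,
      (evH hχ H v.1 (hev v.1 (mem_sdiff.1 v.2).2)) ^ (u.1.2 v.1 / dg v.1), fun g => ?_⟩
  beta_reduce
  rw [← vj_sum hpos hfin hq hP hD hχ (hL g) (hdeg g) (hT g g.2) j, ← Finset.sum_coe_sort]
  refine Finset.sum_congr rfl fun u _ => ?_
  congr 1
  rw [MonoidHom.finsetProd_apply]
  unfold eF
  rw [← prod_attach]
  exact prod_congr rfl fun v _ => by
    rw [MonoidHom.pow_apply]
    rfl

end main

end Pool.Agent.H92F
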