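import Pool.Agent.H92F.Exp

/-!
# The explicit bound for the first block
-/

set_option autoImplicit false
set_option linter.unusedSectionVars false

namespace Pool.Agent.H92F

open Finset Polynomial
open Pool.Agent.W343.BSD
open Pool.Agent.Y683.CG
open Pool.Agent.H92 Pool.Agent.H92P

lemma prod_dec {l : ℕ} (hl : l.Prime) {J : Type} (s : Finset J) (W : J → ℤ) (n : J → ℕ)
    (h : ∀ i ∈ s, ∃ k ≤ n i, ∃ u : ℤ, ¬ (l : ℤ) ∣ u ∧ W i = (l : ℤ) ^ k * u) :
    ∃ k ≤ ∑ i ∈ s, n i, ∃ u : ℤ, ¬ (l : ℤ) ∣ u ∧ ∏ i ∈ s, W i = (l : ℤ) ^ k * u := by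
  classical
  have hlp : Prime (l : ℤ) := Nat.prime_iff_prime_int.1 hl
  induction s using Finset.induction_on with
  | empty =>
    refine ⟨0, Nat.zero_le _, 1, fun h1 => hlp.not_dvd_one h1, by simp⟩
  | insert i s hi ih =>
    obtain ⟨k1, hk1, u1, hu1, e1⟩ := h i (mem_insert_self i s)
    obtain ⟨k2, hk2, u2, hu2, e2⟩ := ih fun j hj => h j (mem_insert_of_mem hj)
    refine ⟨k1 + k2, ?_, u1 * u2, fun h1 => ?_, ?_⟩
    · rw [sum_insert hi]
      exact Nat.add_le_add hk1 hk2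
    · rcases hlp.dvd_or_dvd h1 with h2 | h2
      · exact hu1 h2
      · exact hu2 h2
    · rw [prod_insert hi, e1, e2, pow_add]
      ring

open Classical in
/-- the normalised leading coefficient is an integer -/
lemma val_intR {ι : Type} {dg : ι → ℕ} {P : ι → ℤ[X]} (hpos : ∀ v, dg v ≠ 0)
    (hfin : ∀ n, {v | dg v ≤ n}.Finite) {q c D : ℕ} (hq : 0 < q)
    (hP : ∀ v, (P v).coeff 0 = 1) (hD : ∀ v, (P v).natDegree ≤ D) {X : Type} [CommGroup X]
    {T : X → Finset ι} {χ : X → ι → ℂ} {L : X → ℂ[X]} (hχ : CGf T χ)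
    (hL : (L 1 : PowerSeries ℂ) * eulerProd dg (fun v => ((tw (P v) (χ 1 v) (dg v) : ℂ[X]) :
      PowerSeries ℂ)) = 1) (hdeg : (L 1).natDegree ≤ c + D * ∑ v ∈ T 1, dg v) (j : ℕ) :
    ∃ M : ℤ, (q : ℂ) ^ c * tc q j (L 1) = M := by
  have h1 := vj_sum (T' := ∅) hpos hfin hq hP hD hχ hL hdeg (by rw [hχ.T1]) j
  refine ⟨∑ u ∈ sF dg hfin c D ∅, wj dg hfin P q c D j ∅ u, ?_⟩
  have h2 : vj dg P q c D T χ L j ∅ 1 = (q : ℂ) ^ c * tc q j (L 1) := by
    unfold vj NN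
    rw [sum_empty, Nat.mul_zero, Nat.add_zero, empty_sdiff, prod_empty, mul_one]
  rw [← h2, ← h1]
  push_cast
  refine Finset.sum_congr rfl fun u _ => ?_
  have h3 : eF dg hfin c D χ ∅ u (1 : X) = 1 := by
    unfold eF
    exact prod_eq_one fun v _ => by rw [hχ.one, one_pow]
  rw [h3, mul_one]

open Classical in
/-- **The explicit bound.** -/
theorem explicit {l : ℕ} (hl : l.Prime) (b m n s : ℕ) {ι : Type} {dg : ι → ℕ}
    (hpos : ∀ v, dg v ≠ 0) (hfin : ∀ n, {v | dg v ≤ n}.Finite) {q : ℕ} (hq : 0 < q)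
    {P : Fin m → ι → ℤ[X]} (hP : ∀ i v, (P i v).coeff 0 = 1) {c D : Fin m → ℕ}
    (hD : ∀ i v, (P i v).natDegree ≤ D i) {X' : Type} [CommGroup X'] {T : X' → Finset ι}
    {χ : X' → ι → ℂ} {L : Fin m → X' → ℂ[X]} (hχ : CGf T χ) (hX : ∀ g : X', g ^ l ^ b = 1)
    (hL : ∀ i g, (L i g : PowerSeries ℂ) * eulerProd dg (fun v =>
      ((tw (P i v) (χ g v) (dg v) : ℂ[X]) : PowerSeries ℂ)) = 1)
    (hdeg : ∀ i g, (L i g).natDegree ≤ c i + D i * ∑ v ∈ T g, dg v)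
    (hadm : ∀ i g, ∀ v ∈ T g, ¬ (l : ℤ) ∣ Qi dg (P i) q (D i) v)
    {𝒮 : Finset ι} (h𝒮 : 𝒮.card ≤ s) (hS : ∀ x, ∀ v ∈ 𝒮, v ∉ T x)
    {ρ : Fin m → ℕ} (h0 : ∀ i, ∀ j < ρ i, tc q j (L i 1) = 0) {M : Fin m → ℤ}
    (hM : ∀ i, (q : ℂ) ^ c i * tc q (ρ i) (L i 1) = M i) (hMn : ∀ i, ¬ (l : ℤ) ^ (n + 1) ∣ M i)
    (g : ℕ → X') :
    ∃ S : Finset ℕ, S.Nonempty ∧ S ⊆ range ((m * n + b * s) * (l ^ b).totient + 1) ∧
      (∀ v ∈ 𝒮, χ (∏ j ∈ S, g j) v = 1) ∧
      ∀ i, ∃ j ≤ ρ i, tc q j (L i (∏ j ∈ S, g j)) ≠ 0 := by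
  have he : 0 < l ^ b := pow_pos hl.pos b
  obtain ⟨𝔪, hmax, hlm⟩ := exists_lam_maxp hl
  have hp𝔪 : 𝔪.IsPrime := hmax.isPrime
  have h2𝔪 : (l : integralClosure ℤ ℂ) ∈ 𝔪 := hlm
  have hlp : Prime (l : ℤ) := Nat.prime_iff_prime_int.1 hl
  set K := m * n + b * s with hK
  set N := K * (l ^ b).totient + 1 with hN
  by_contra hcon
  push Not at hcon
  set g' : ℕ → X' := fun j => if j < N then g j else 1 with hg'
  set H : Subgroup X' := Subgroup.closure (Set.range g') with hH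
  set T' : Finset ι := (range N).biUnion fun j => T (g j) with hT'
  have hTH : ∀ x ∈ H, T x ⊆ T' := by
    refine T_closure hχ he hX ?_
    rintro _ ⟨j, rfl⟩
    simp only [hg']
    split_ifs with hj
    · exact subset_biUnion_of_mem (fun j => T (g j)) (mem_range.2 hj)
    · rw [hχ.T1]
      exact empty_subset _
  have hgH : ∀ j, g' j ∈ H := fun j => Subgroup.subset_closure ⟨j, rfl⟩
  have hgg : ∀ S : Finset ℕ, S ⊆ range N → ∏ j ∈ S, g' j = ∏ j ∈ S, g j := by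
    intro S hS
    refine prod_congr rfl fun j hj => ?_
    simp only [hg']
    rw [if_pos (mem_range.1 (hS hj))]
  have hadmT : ∀ i, ∀ v ∈ T', ¬ (l : ℤ) ∣ Qi dg (P i) q (D i) v := by
    intro i v hv
    obtain ⟨j, -, hj⟩ := mem_biUnion.1 hv
    exact hadm i _ v hj
  set f : X' → ℂ := fun x => (∏ i, vj dg (P i) q (c i) (D i) T χ (L i) (ρ i) T' x) *
    ∏ v ∈ 𝒮, ∑ a ∈ range (l ^ b), χ x v ^ a with hf
  have hfC : CSum H f := by
    refine CSum.mul (CSum.prod univ _ fun i _ => ?_) (CSum.prod 𝒮 _ fun v hv => ?_)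
    · exact csum_vj hpos hfin hq (hP i) (hD i) hχ (hL i) (hdeg i) hTH (ρ i)
    · exact csum_local hχ H (l ^ b) v fun x _ => hS x v hv
  have hbad : ∀ S : Finset ℕ, S.Nonempty → S ⊆ range N → f (∏ j ∈ S, g' j) = 0 := by
    intro S hS1 hS2
    rw [hgg S hS2]
    by_contra hne
    have hxH : ∏ j ∈ S, g j ∈ H := by
      rw [← hgg S hS2]
      exact Subgroup.prod_mem _ fun j _ => hgH j
    simp only [hf] at hne
    obtain ⟨h1, h2⟩ := mul_ne_zero_iff.1 hne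
    rw [prod_ne_zero_iff] at h1 h2
    obtain ⟨i, hi⟩ := hcon S hS1 hS2 (fun v hv => by
      have h3 := h2 v hv
      have h4 := mul_geom_sum (χ (∏ j ∈ S, g j) v) (l ^ b)
      rw [hχ.root _ (hX _) (hS _ v hv), sub_self] at h4
      exact sub_eq_zero.1 ((mul_eq_zero.1 h4).resolve_right h3))
    refine h1 i (mem_univ i) ?_
    rw [vj_lev (T' := T (∏ j ∈ S, g j)) (T'' := T') subset_rfl (hTH _ hxH)]
    refine Finset.sum_eq_zero fun x hx => ?_
    have h3 : x.1 + x.2 = ρ i := HasAntidiagonal.mem_antidiagonal.1 hx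
    rw [vj_top, hi x.2 (by omega), mul_zero, mul_zero]
  obtain ⟨z, hz1, hz2⟩ := hfC.key hl hp𝔪 h2𝔪 hX K hgH hbad
  -- the value at the trivial character
  have hf1 : f 1 = (((∏ i, ((∏ v ∈ T', Qi dg (P i) q (D i) v) * M i)) *
      ((l : ℤ) ^ b) ^ 𝒮.card : ℤ) : ℂ) := by
    simp only [hf]
    push_cast
    congr 1
    · refine prod_congr rfl fun i _ => ?_
      rw [vj_one_split hχ (h0 i) le_rfl (empty_subset T'), sdiff_empty, Aj_zero hq (hD i)]
      congr 1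
      · exact prod_congr rfl fun v _ => by rw [hχ.one, Qf_one]
      · have h4 := vj_top (dg := dg) (P := P i) (q := q) (c := c i) (D := D i) (T := T) (χ := χ)
          (L := L i) (ρ i) (1 : X')
        rw [hχ.T1] at h4
        rw [h4]
        unfold NN
        rw [sum_empty, Nat.mul_zero, Nat.add_zero, hM]
    · have h4 : ∀ v ∈ 𝒮, ∑ a ∈ range (l ^ b), χ (1 : X') v ^ a = (l : ℂ) ^ b := by
        intro v _
        rw [hχ.one]
        simp
      rw [prod_congr rfl h4, prod_const]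
  obtain ⟨k, hk, u, hu, hku⟩ := prod_dec hl univ
    (fun i : Fin m => (∏ v ∈ T', Qi dg (P i) q (D i) v) * M i) (fun _ => n)
    (fun i _ => by
      have hM0 : M i ≠ 0 := by
        intro h
        apply hMn i
        rw [h]
        exact dvd_zero _
      obtain ⟨a, u, hu, hau⟩ := p_part hl hM0
      refine ⟨a, ?_, (∏ v ∈ T', Qi dg (P i) q (D i) v) * u, fun h => ?_, ?_⟩
      · by_contra h3
        apply hMn i
        rw [hau]
        exact (pow_dvd_pow _ (by omega)).mul_right _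
      · rcases hlp.dvd_or_dvd h with h3 | h3
        · obtain ⟨v, hv, h4⟩ := hlp.exists_mem_finset_dvd h3
          exact hadmT i v hv h4
        · exact hu h3
      · rw [hau]
        ring)
  rw [sum_const, card_univ, Fintype.card_fin, smul_eq_mul] at hk
  have hkK : k + b * 𝒮.card ≤ K := by
    have := Nat.mul_le_mul_left b h𝒮
    omega
  rw [hf1, hku] at hz2
  have hlC : (l : ℂ) ≠ 0 := by exact_mod_cast hl.ne_zero
  have hz3 : (u : ℂ) = (l : ℂ) ^ (K - (k + b * 𝒮.card)) * (z : integralClosure ℤ ℂ) := by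
    have h3 : (l : ℂ) ^ K = (l : ℂ) ^ (k + b * 𝒮.card) * (l : ℂ) ^ (K - (k + b * 𝒮.card)) := by
      rw [← pow_add, Nat.add_sub_cancel' hkK]
    rw [h3] at hz2
    push_cast at hz2
    have h4 : (l : ℂ) ^ (k + b * 𝒮.card) * (u : ℂ) = (l : ℂ) ^ (k + b * 𝒮.card) *
        ((l : ℂ) ^ (K - (k + b * 𝒮.card)) * (z : integralClosure ℤ ℂ)) := by
      rw [pow_add, pow_mul]
      rw [pow_add, pow_mul] at hz2
      linear_combination hz2
    exact mul_left_cancel₀ (pow_ne_zero _ hlC) h4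
  have hz4 : ((u : ℤ) : integralClosure ℤ ℂ) =
      (l : integralClosure ℤ ℂ) ^ (K - (k + b * 𝒮.card)) * z := by
    apply Subtype.ext
    push_cast
    exact hz3
  exact int_notMem hl hu hp𝔪 h2𝔪 (by rw [hz4]; exact 𝔪.mul_mem_left _ hz1)

end Pool.Agent.H92F
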