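import Pool.Agent.H92F.Ram
import Pool.Agent.H92F.Eul
import Pool.Agent.H92P.AdP

/-!
# Uniform towers of characters with nonzero values of the L-functions, over function fields
-/

set_option autoImplicit false
set_option linter.unusedSectionVars false

namespace Pool.Agent.H92F

open Finset Polynomial
open Pool.Agent.W343.BSD
open Pool.Agent.Y683.CG
open Pool.Agent.H92 Pool.Agent.H92P

/-- groups of characters, as functions on the places -/
structure CGf {ι X : Type} [CommGroup X] (T : X → Finset ι) (χ : X → ι → ℂ) : Prop where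
  zero : ∀ g v, χ g v = 0 ↔ v ∈ T g
  mul : ∀ g h v, χ g v ≠ 0 → χ h v ≠ 0 → χ (g * h) v = χ g v * χ h v
  one : ∀ v, χ 1 v = 1

section grp

variable {ι X : Type} [CommGroup X] {T : X → Finset ι} {χ : X → ι → ℂ}

lemma CGf.T1 (h : CGf T χ) : T 1 = ∅ := by
  rw [Finset.eq_empty_iff_forall_notMem]
  intro v hv
  have h1 := (h.zero 1 v).2 hv
  rw [h.one] at h1
  exact one_ne_zero h1

lemma CGf.supp [DecidableEq ι] (h : CGf T χ) (g g' : X) : T (g * g') ⊆ T g ∪ T g' := by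
  intro v hv
  by_contra hcon
  rw [mem_union, not_or] at hcon
  have h1 : χ g v ≠ 0 := fun h0 => hcon.1 ((h.zero g v).1 h0)
  have h2 : χ g' v ≠ 0 := fun h0 => hcon.2 ((h.zero g' v).1 h0)
  have h3 := (h.zero (g * g') v).2 hv
  rw [h.mul g g' v h1 h2] at h3
  exact mul_ne_zero h1 h2 h3

lemma CGf.root (h : CGf T χ) {e : ℕ} (g : X) (hg : g ^ e = 1) {v : ι} (hv : v ∉ T g) :
    χ g v ^ e = 1 := by
  have hx : χ g v ≠ 0 := fun h0 => hv ((h.zero g v).1 h0)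
  have h1 : ∀ j : ℕ, χ (g ^ j) v = χ g v ^ j := by
    intro j
    induction j with
    | zero => rw [pow_zero, pow_zero, h.one]
    | succ j ih =>
      rw [pow_succ, pow_succ, h.mul _ _ v (by rw [ih]; exact pow_ne_zero j hx) hx, ih]
  rw [← h1, hg, h.one]

end grp

section lat

/-- the ring generated by the roots of unity -/
def Rt (e : ℕ) : Submodule ℤ ℂ := Submodule.span ℤ {ζ : ℂ | ζ ^ e = 1}

lemma rt_fg {e : ℕ} (he : 0 < e) : (Rt e).FG := by
  refine Submodule.fg_span ?_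
  have h1 : {ζ : ℂ | ζ ^ e = 1} = (Polynomial.nthRootsFinset e (1 : ℂ) : Set ℂ) := by
    ext ζ
    rw [Finset.mem_coe, Polynomial.mem_nthRootsFinset he]
    rfl
  rw [h1]
  exact Finset.finite_toSet _

lemma rt_one (e : ℕ) : (1 : ℂ) ∈ Rt e := Submodule.subset_span (one_pow e)

lemma rt_int (e : ℕ) (m : ℤ) : (m : ℂ) ∈ Rt e := by
  have h1 := Submodule.smul_mem (Rt e) m (rt_one e)
  rwa [zsmul_eq_mul, mul_one] at h1

lemma rt_root {e : ℕ} {ζ : ℂ} (hζ : ζ ^ e = 1) : ζ ∈ mulR (Rt e) := by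
  intro a ha
  refine Submodule.span_induction (p := fun a _ => ζ * a ∈ Rt e) ?_ ?_ ?_ ?_ ha
  · intro x hx
    refine Submodule.subset_span ?_
    show (ζ * x) ^ e = 1
    rw [mul_pow, hζ, one_mul]
    exact hx
  · rw [mul_zero]
    exact Submodule.zero_mem _
  · intro x y _ _ hx hy
    rw [mul_add]
    exact Submodule.add_mem _ hx hy
  · intro r x _ hx
    rw [mul_smul_comm]
    exact Submodule.smul_mem _ r hx

lemma rt_mulR_int (e : ℕ) (m : ℤ) : (m : ℂ) ∈ mulR (Rt e) := by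
  intro a ha
  have h1 := Submodule.smul_mem (Rt e) m ha
  rwa [zsmul_eq_mul] at h1

end lat

section eul

variable {ι : Type} {dg : ι → ℕ} {P : ι → ℤ[X]}

/-- the factor at `v`, for the value `z` of the character -/
noncomputable def Qf (dg : ι → ℕ) (P : ι → ℤ[X]) (q D : ℕ) (v : ι) (z : ℂ) : ℂ :=
  ∑ j ∈ range (D + 1), ((P v).coeff j : ℂ) * (q : ℂ) ^ (dg v * (D - j)) * z ^ j

/-- the factor at `v` for the trivial character -/
def Qi (dg : ι → ℕ) (P : ι → ℤ[X]) (q D : ℕ) (v : ι) : ℤ :=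
  ∑ j ∈ range (D + 1), (P v).coeff j * (q : ℤ) ^ (dg v * (D - j))

lemma Qf_one (q D : ℕ) (v : ι) : Qf dg P q D v 1 = (Qi dg P q D v : ℂ) := by
  unfold Qf Qi
  push_cast
  refine Finset.sum_congr rfl fun j _ => ?_
  rw [one_pow, mul_one]

lemma q_tw {q D : ℕ} (hq : 0 < q) (v : ι) (hD : (P v).natDegree ≤ D) (z : ℂ) :
    (q : ℂ) ^ (D * dg v) * (tw (P v) z (dg v)).eval (q : ℂ)⁻¹ = Qf dg P q D v z := by
  have hq0 : (q : ℂ) ≠ 0 := by exact_mod_cast hq.ne'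
  rw [eval_tw, eval_eq_sum_range' (n := D + 1)
    (lt_of_le_of_lt natDegree_map_le (Nat.lt_succ_of_le hD)), Finset.mul_sum]
  unfold Qf
  refine Finset.sum_congr rfl fun j hj => ?_
  have hj' : j ≤ D := Nat.lt_succ_iff.1 (Finset.mem_range.1 hj)
  have e1 : (q : ℂ) ^ (D * dg v) = (q : ℂ) ^ (dg v * (D - j)) * (q : ℂ) ^ (dg v * j) := by
    rw [← pow_add, ← Nat.mul_add, Nat.sub_add_cancel hj', Nat.mul_comm]
  rw [Polynomial.coeff_map, e1, mul_pow, ← pow_mul, inv_pow]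
  have e2 : (q : ℂ) ^ (dg v * j) * ((q : ℂ) ^ (dg v * j))⁻¹ = 1 :=
    mul_inv_cancel₀ (pow_ne_zero _ hq0)
  show _ * _ * (((P v).coeff j : ℂ) * (z ^ j * ((q : ℂ) ^ (dg v * j))⁻¹)) = _
  linear_combination (((P v).coeff j : ℂ) * (q : ℂ) ^ (dg v * (D - j)) * z ^ j) * e2

variable {X : Type} [CommGroup X] {T : X → Finset ι} {χ : X → ι → ℂ} {L : X → ℂ[X]}

/-- the exponent of `q` -/
def NN (dg : ι → ℕ) (c D : ℕ) (T' : Finset ι) : ℕ := c + D * ∑ v ∈ T', dg v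

open Classical in
/-- the value of the imprimitive L-function -/
noncomputable def vl (dg : ι → ℕ) (P : ι → ℤ[X]) (q c D : ℕ) (T : X → Finset ι)
    (χ : X → ι → ℂ) (L : X → ℂ[X]) (T' : Finset ι) (g : X) : ℂ :=
  (q : ℂ) ^ NN dg c D T' * (L g * ∏ v ∈ T' \ T g, tw (P v) (χ g v) (dg v)).eval (q : ℂ)⁻¹

open Classical in
lemma vl_lev {q c D : ℕ} (hq : 0 < q) (hD : ∀ v, (P v).natDegree ≤ D) {g : X}
    {T' T'' : Finset ι} (h1 : T g ⊆ T') (h2 : T' ⊆ T'') :
    vl dg P q c D T χ L T'' g = (∏ v ∈ T'' \ T', Qf dg P q D v (χ g v)) *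
      vl dg P q c D T χ L T' g := by
  unfold vl
  have e1 : T'' \ T g = (T'' \ T') ∪ (T' \ T g) := by
    ext v
    simp only [mem_sdiff, mem_union]
    constructor
    · rintro ⟨h3, h4⟩
      by_cases h5 : v ∈ T'
      · exact Or.inr ⟨h5, h4⟩
      · exact Or.inl ⟨h3, h5⟩
    · rintro (⟨h3, h4⟩ | ⟨h3, h4⟩)
      · exact ⟨h3, fun h5 => h4 (h1 h5)⟩
      · exact ⟨h2 h3, h4⟩
  have hdis : Disjoint (T'' \ T') (T' \ T g) := by
    rw [Finset.disjoint_left]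
    intro v hv hv'
    exact (mem_sdiff.1 hv).2 (mem_sdiff.1 hv').1
  have e2 : NN dg c D T'' = NN dg c D T' + ∑ v ∈ T'' \ T', D * dg v := by
    unfold NN
    rw [← Finset.mul_sum, ← sum_sdiff h2]
    ring
  rw [e1, prod_union hdis, e2, pow_add, ← Finset.prod_pow_eq_pow_sum]
  have e3 : ∏ v ∈ T'' \ T', Qf dg P q D v (χ g v) =
      (∏ v ∈ T'' \ T', (q : ℂ) ^ (D * dg v)) *
        ∏ v ∈ T'' \ T', (tw (P v) (χ g v) (dg v)).eval (q : ℂ)⁻¹ := by
    rw [← prod_mul_distrib]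
    exact prod_congr rfl fun v _ => (q_tw hq v (hD v) _).symm
  rw [e3, eval_mul, eval_mul, eval_mul, eval_prod]
  ring

variable (hpos : ∀ v, dg v ≠ 0) (hfin : ∀ n, {v | dg v ≤ n}.Finite)

open Classical in
/-- the terms of the sum -/
noncomputable def sF (dg : ι → ℕ) (hfin : ∀ n, {v | dg v ≤ n}.Finite) (c D : ℕ) (T' : Finset ι) :
    Finset (Σ _ : ℕ, ι →₀ ℕ) :=
  (range (NN dg c D T' + 1)).sigma fun k =>
    finsuppAntidiag ((hfin (NN dg c D T')).toFinset \ T') k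

open Classical in
/-- the weights -/
noncomputable def wF (dg : ι → ℕ) (hfin : ∀ n, {v | dg v ≤ n}.Finite) (P : ι → ℤ[X]) (q c D : ℕ)
    (T' : Finset ι) (u : Σ _ : ℕ, ι →₀ ℕ) : ℤ :=
  (q : ℤ) ^ (NN dg c D T' - u.1) * ∏ v ∈ (hfin (NN dg c D T')).toFinset \ T',
    if dg v ∣ u.2 v then PowerSeries.coeff (u.2 v / dg v) (inv' (P v)) else 0

open Classical in
/-- the values of the characters -/
noncomputable def eF (dg : ι → ℕ) (hfin : ∀ n, {v | dg v ≤ n}.Finite) (c D : ℕ)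
    (χ : X → ι → ℂ) (T' : Finset ι) (u : Σ _ : ℕ, ι →₀ ℕ) (g : X) : ℂ :=
  ∏ v ∈ (hfin (NN dg c D T')).toFinset \ T', χ g v ^ (u.2 v / dg v)

include hpos in
open Classical in
lemma sum_eq {q c D : ℕ} (hq : 0 < q) (hP : ∀ v, (P v).coeff 0 = 1)
    (hD : ∀ v, (P v).natDegree ≤ D) (hχ : CGf T χ) {g : X}
    (hL : (L g : PowerSeries ℂ) * eulerProd dg (fun v => ((tw (P v) (χ g v) (dg v) : ℂ[X]) :
      PowerSeries ℂ)) = 1) (hdeg : (L g).natDegree ≤ c + D * ∑ v ∈ T g, dg v) {T' : Finset ι}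
    (hT : T g ⊆ T') :
    ∑ u ∈ sF dg hfin c D T', (wF dg hfin P q c D T' u : ℂ) * eF dg hfin c D χ T' u g =
      vl dg P q c D T χ L T' g := by
  have hq0 : (q : ℂ) ≠ 0 := by exact_mod_cast hq.ne'
  unfold vl
  set F := L g * ∏ v ∈ T' \ T g, tw (P v) (χ g v) (dg v) with hF
  have hFd : F.natDegree ≤ NN dg c D T' := by
    rw [hF]
    refine natDegree_mul_le.trans ?_
    have h1 : (∏ v ∈ T' \ T g, tw (P v) (χ g v) (dg v)).natDegree ≤ ∑ v ∈ T' \ T g, D * dg v :=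
      (natDegree_prod_le _ _).trans (sum_le_sum fun v _ => natDegree_tw_le _ _ _ (hD v))
    unfold NN
    rw [← Finset.mul_sum] at h1
    rw [← sum_sdiff hT, Nat.mul_add]
    omega
  rw [eval_eq_sum_range' (n := NN dg c D T' + 1) (Nat.lt_succ_of_le hFd), Finset.mul_sum]
  unfold sF
  rw [Finset.sum_sigma]
  refine Finset.sum_congr rfl fun k hk => ?_
  have hk' : k ≤ NN dg c D T' := Nat.lt_succ_iff.1 (mem_range.1 hk)
  have h1 := coeff_impr hpos hfin hP (χ := χ g) hL (T0 := T g) (T' := T')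
    (fun v hv => (hχ.zero g v).2 hv) hT (NN dg c D T') hk'
  rw [← hF] at h1
  rw [h1, PowerSeries.coeff_prod, Finset.sum_mul, Finset.mul_sum]
  refine Finset.sum_congr rfl fun l _ => ?_
  unfold wF eF
  simp only
  have e1 : (q : ℂ) ^ NN dg c D T' = (q : ℂ) ^ (NN dg c D T' - k) * (q : ℂ) ^ k := by
    rw [← pow_add, Nat.sub_add_cancel hk']
  have e2 : (q : ℂ) ^ k * ((q : ℂ)⁻¹) ^ k = 1 := by
    rw [← mul_pow, mul_inv_cancel₀ hq0, one_pow]
  push_cast
  have e3 : (∏ v ∈ (hfin (NN dg c D T')).toFinset \ T', PowerSeries.coeff (l v)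
      (tws (dg v) (hpos v) (χ g v) (inv' (P v)))) =
      (∏ v ∈ (hfin (NN dg c D T')).toFinset \ T', (if dg v ∣ l v then
        ((PowerSeries.coeff (l v / dg v) (inv' (P v)) : ℤ) : ℂ) else 0)) *
        ∏ v ∈ (hfin (NN dg c D T')).toFinset \ T', χ g v ^ (l v / dg v) := by
    rw [← prod_mul_distrib]
    refine prod_congr rfl fun v _ => ?_
    rw [coeff_tws]
    split_ifs
    · ring
    · ring
  rw [e3, e1]
  have e4 : ∀ v, ((if dg v ∣ l v then PowerSeries.coeff (l v / dg v) (inv' (P v)) else 0 : ℤ) : ℂ) =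
      (if dg v ∣ l v then ((PowerSeries.coeff (l v / dg v) (inv' (P v)) : ℤ) : ℂ) else 0) := by
    intro v
    split_ifs <;> simp
  linear_combination (-((q : ℂ) ^ (NN dg c D T' - k)) *
    (∏ v ∈ (hfin (NN dg c D T')).toFinset \ T', (if dg v ∣ l v then
        ((PowerSeries.coeff (l v / dg v) (inv' (P v)) : ℤ) : ℂ) else 0)) *
        ∏ v ∈ (hfin (NN dg c D T')).toFinset \ T', χ g v ^ (l v / dg v)) * e2

end eul

end Pool.Agent.H92F
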