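import Pool.Agent.H92F.Tow
import Pool.Agent.H92F.Cf
import Pool.Graph.R_seed8.W343.BSD.KidaFinal

/-!
# Local conditions, counting, and the hypotheses on the values
-/

set_option autoImplicit false
set_option linter.unusedSectionVars false

namespace Pool.Agent.H92F

open Finset Polynomial
open Pool.Agent.W343.BSD
open Pool.Agent.Y683.CG
open Pool.Agent.H92 Pool.Agent.H92P

section grp

variable {ι X : Type} [CommGroup X] {T : X → Finset ι} {χ : X → ι → ℂ}

/-- blocks with trivial values at the places in `S` -/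
theorem ram_S (hχ : CGf T χ) {e : ℕ} (he : 0 < e) (hX : ∀ g : X, g ^ e = 1) (S : Finset ι)
    (hS : ∀ x, ∀ v ∈ S, v ∉ T x) (d s : ℕ) (hs : S.card ≤ s) :
    Ram d (fun k => k * e ^ (s * d)) (fun x : X => ∀ v ∈ S, χ x v = 1) := by
  classical
  set R : Finset ℂ := Polynomial.nthRootsFinset e (1 : ℂ) with hR
  set M : ℕ := e ^ (s * d) with hM
  have hRc : R.card ≤ e := by
    rw [hR]
    unfold nthRootsFinset
    exact (Multiset.toFinset_card_le _).trans (card_nthRoots e 1)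
  have hcard : (Fintype.piFinset fun _ : Fin d × S => R).card ≤ M := by
    rw [Fintype.card_piFinset, prod_const, card_univ, Fintype.card_prod, Fintype.card_fin,
      Fintype.card_coe, hM]
    calc R.card ^ (d * S.card) ≤ e ^ (d * S.card) := Nat.pow_le_pow_left hRc _
      _ ≤ e ^ (s * d) := Nat.pow_le_pow_right he (by
          rw [Nat.mul_comm s d]
          exact Nat.mul_le_mul_left d hs)
  intro τ g
  have hne : ∀ (y : X), ∀ v ∈ S, χ y v ≠ 0 := fun y v hv h0 => hS y v hv ((hχ.zero y v).1 h0)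
  have hmul : ∀ (y y' : X), ∀ v ∈ S, χ (y * y') v = χ y v * χ y' v :=
    fun y y' v hv => hχ.mul y y' _ (hne y v hv) (hne y' v hv)
  set F : ℕ → ℕ → (Fin d × S → ℂ) := fun k j iv =>
    χ (τ iv.1 (∏ i ∈ range j, g (k * M + i))) iv.2.1 with hF
  have hFm : ∀ k j, F k j ∈ Fintype.piFinset fun _ : Fin d × S => R := by
    intro k j
    rw [Fintype.mem_piFinset]
    intro iv
    rw [hR, Polynomial.mem_nthRootsFinset he]
    exact hχ.root _ (hX _) (hS _ _ iv.2.2)
  have hex : ∀ k, ∃ i j, i < j ∧ j ≤ M ∧ F k i = F k j := by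
    intro k
    obtain ⟨i, hi, j, hj, hij, h1⟩ := Finset.exists_ne_map_eq_of_card_lt_of_maps_to
      (s := range (M + 1)) (t := Fintype.piFinset fun _ : Fin d × S => R) (f := F k)
      (by rw [card_range]; exact Nat.lt_succ_of_le hcard) (fun j _ => hFm k j)
    have hi' := mem_range.1 hi
    have hj' := mem_range.1 hj
    rcases lt_or_gt_of_ne hij with h2 | h2
    · exact ⟨i, j, h2, by omega, h1⟩
    · exact ⟨j, i, h2, by omega, h1.symm⟩
  choose i j hij hj hFe using hex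
  refine ⟨fun k => Ico (k * M + i k) (k * M + j k), fun k => ⟨?_, ?_⟩, fun x hx => ?_⟩
  · rw [nonempty_Ico]
    have := hij k
    omega
  · have h1 := hj k
    refine Ico_subset_Ico (Nat.le_add_right _ _) ?_
    beta_reduce
    rw [Nat.succ_mul]
    omega
  · unfold clo at hx
    refine Subgroup.closure_induction (p := fun x _ => ∀ v ∈ S, χ x v = 1) ?_ ?_ ?_ ?_ hx
    · rintro _ ⟨a, k, rfl⟩ v hv
      have h1 := congrFun (hFe k) (a, ⟨v, hv⟩)
      simp only [hF] at h1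
      have h2 : ∏ t ∈ range (j k), g (k * M + t) = (∏ t ∈ range (i k), g (k * M + t)) *
          ∏ t ∈ Ico (k * M + i k) (k * M + j k), g t := by
        have h3 : ∏ t ∈ Ico (k * M + i k) (k * M + j k), g t =
            ∏ t ∈ Ico (i k) (j k), g (k * M + t) := by
          rw [add_comm (k * M) (i k), add_comm (k * M) (j k), ← prod_Ico_add]
        rw [h3, prod_range_mul_prod_Ico _ (hij k).le]
      rw [h2, map_mul, hmul _ _ v hv] at h1
      exact (mul_left_cancel₀ (hne _ v hv) (by rw [mul_one]; exact h1)).symm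
    · intro v _
      exact hχ.one _
    · intro x y _ _ hx hy v hv
      rw [hmul x y v hv, hx v hv, hy v hv, one_mul]
    · intro x _ hx v hv
      have h1 := hmul x⁻¹ x v hv
      rw [inv_mul_cancel, hχ.one, hx v hv, mul_one] at h1
      exact h1.symm

lemma encard_cover (B : Set X) (𝒦 : Finset X) : ∀ A : Set X, (∀ g ∈ A, ∃ k ∈ 𝒦, g * k ∈ B) →
    A.encard ≤ 𝒦.card * B.encard := by
  classical
  induction 𝒦 using Finset.induction_on with
  | empty =>
    intro A hA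
    have h1 : A = ∅ := by
      rw [Set.eq_empty_iff_forall_notMem]
      intro g hg
      obtain ⟨k, hk, -⟩ := hA g hg
      exact absurd hk (notMem_empty k)
    rw [h1]
    simp
  | insert k 𝒦 hk ih =>
    intro A hA
    have h1 : A = (A ∩ {g | g * k ∈ B}) ∪ (A \ {g | g * k ∈ B}) := (Set.inter_union_sdiff A _).symm
    have h2 : (A ∩ {g | g * k ∈ B}).encard ≤ B.encard := by
      have h3 : ((fun g => g * k) '' (A ∩ {g | g * k ∈ B})).encard ≤ B.encard := by
        refine Set.encard_le_encard ?_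
        rintro _ ⟨g, hg, rfl⟩
        exact hg.2
      rwa [Function.Injective.encard_image (mul_left_injective k)] at h3
    have h4 : (A \ {g | g * k ∈ B}).encard ≤ 𝒦.card * B.encard := by
      refine ih _ fun g hg => ?_
      obtain ⟨k', hk', hkB⟩ := hA g hg.1
      rcases mem_insert.1 hk' with rfl | h5
      · exact absurd hkB hg.2
      · exact ⟨k', h5, hkB⟩
    rw [h1, card_insert_of_notMem hk]
    refine (Set.encard_union_le _ _).trans ?_
    push_cast
    rw [add_mul, one_mul, add_comm]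
    exact add_le_add h4 h2

/-- the counting from the covering by translates -/
lemma count_of_cover (hχ : CGf T χ) (dg : ι → ℕ) (P : X → Prop) (𝒦 : Finset X)
    (h𝒦 : ∀ g : X, ∃ k ∈ 𝒦, P (g * k)) :
    ∃ C : ℕ, ∀ N : ℕ, {g : X | ∑ v ∈ T g, dg v ≤ N}.encard ≤
      𝒦.card * {g : X | ∑ v ∈ T g, dg v ≤ N + C ∧ P g}.encard := by
  classical
  refine ⟨𝒦.sup fun k => ∑ v ∈ T k, dg v, fun N => encard_cover _ _ _ fun g hg => ?_⟩
  obtain ⟨k, hk, hP⟩ := h𝒦 g
  refine ⟨k, hk, ?_, hP⟩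
  have h1 : ∑ v ∈ T (g * k), dg v ≤ ∑ v ∈ T g, dg v + ∑ v ∈ T k, dg v := by
    calc ∑ v ∈ T (g * k), dg v ≤ ∑ v ∈ T g ∪ T k, dg v :=
          sum_le_sum_of_subset (hχ.supp g k)
      _ ≤ ∑ v ∈ T g, dg v + ∑ v ∈ T k, dg v := by
          rw [← sum_union_inter]
          exact Nat.le_add_right _ _
  have h2 : ∑ v ∈ T k, dg v ≤ 𝒦.sup fun k => ∑ v ∈ T k, dg v :=
    Finset.le_sup (f := fun k => ∑ v ∈ T k, dg v) hk
  have h3 : ∑ v ∈ T g, dg v ≤ N := hg
  show ∑ v ∈ T (g * k), dg v ≤ _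
  omega

end grp

section val

/-- a rational number of valuation at most `n` -/
lemma not_dvd_of_val {l : ℕ} (hl : l.Prime) {q c n : ℕ} (hq : ¬ l ∣ q) {x : ℚ} (hx : x ≠ 0)
    (hn : padicValRat l x ≤ n) {M : ℤ} (hM : (M : ℚ) = (q : ℚ) ^ c * x) :
    ¬ (l : ℤ) ^ (n + 1) ∣ M := by
  have : Fact l.Prime := ⟨hl⟩
  have hq0 : (q : ℚ) ≠ 0 := by
    intro h
    apply hq
    have h1 : q = 0 := by exact_mod_cast h
    rw [h1]
    exact dvd_zero _
  have hM0 : M ≠ 0 := by
    rintro rfl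
    rw [Int.cast_zero] at hM
    exact mul_ne_zero (pow_ne_zero c hq0) hx hM.symm
  intro hdvd
  have h1 : padicValRat l (M : ℚ) = padicValRat l x := by
    rw [hM, padicValRat.mul (pow_ne_zero c hq0) hx, padicValRat.pow]
    have h2 : padicValRat l (q : ℚ) = 0 := by
      rw [padicValRat.of_nat, padicValNat.eq_zero_of_not_dvd hq]
      rfl
    rw [h2, mul_zero, zero_add]
  rw [padicValRat.of_int] at h1
  have h3 : n + 1 ≤ padicValInt l M := (padicValInt_dvd_iff (n + 1) M).1 hdvd |>.resolve_left hM0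
  have h4 : ((n + 1 : ℕ) : ℤ) ≤ (padicValInt l M : ℤ) := by exact_mod_cast h3
  rw [h1] at h4
  push_cast at h4
  omega

variable {ι : Type} {dg : ι → ℕ} {P : ι → ℤ[X]}

lemma Qi_eq {q D : ℕ} (hq : 0 < q) (v : ι) (hD : (P v).natDegree ≤ D) :
    ((Qi dg P q D v : ℤ) : ℚ) = (q : ℚ) ^ (D * dg v) *
      ((P v).map (Int.castRingHom ℚ)).eval (((q ^ dg v : ℕ) : ℚ)⁻¹) := by
  have hq0 : (q : ℚ) ≠ 0 := by exact_mod_cast hq.ne'
  rw [eval_eq_sum_range' (n := D + 1)
    (lt_of_le_of_lt natDegree_map_le (Nat.lt_succ_of_le hD)), Finset.mul_sum]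
  unfold Qi
  push_cast
  refine Finset.sum_congr rfl fun j hj => ?_
  have hj' : j ≤ D := Nat.lt_succ_iff.1 (Finset.mem_range.1 hj)
  have e1 : (q : ℚ) ^ (D * dg v) = (q : ℚ) ^ (dg v * (D - j)) * (q : ℚ) ^ (dg v * j) := by
    rw [← pow_add, ← Nat.mul_add, Nat.sub_add_cancel hj', Nat.mul_comm]
  rw [Polynomial.coeff_map, e1, inv_pow, ← pow_mul]
  have e2 : (q : ℚ) ^ (dg v * j) * ((q : ℚ) ^ (dg v * j))⁻¹ = 1 :=
    mul_inv_cancel₀ (pow_ne_zero _ hq0)
  show _ = _ * _ * (((P v).coeff j : ℚ) * ((q : ℚ) ^ (dg v * j))⁻¹)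
  linear_combination (-((P v).coeff j : ℚ) * (q : ℚ) ^ (dg v * (D - j))) * e2

lemma Qi_unit {l : ℕ} (hl : l.Prime) {q D : ℕ} (hq : 0 < q) (hql : ¬ l ∣ q) (v : ι)
    (hD : (P v).natDegree ≤ D)
    (h0 : ((P v).map (Int.castRingHom ℚ)).eval (((q ^ dg v : ℕ) : ℚ)⁻¹) ≠ 0)
    (h1 : padicValRat l (((P v).map (Int.castRingHom ℚ)).eval (((q ^ dg v : ℕ) : ℚ)⁻¹)) = 0) :
    ¬ (l : ℤ) ∣ Qi dg P q D v := by
  have h2 := not_dvd_of_val hl (q := q) (c := D * dg v) (n := 0) hql h0 (by rw [h1]; rfl)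
    (Qi_eq (dg := dg) hq v hD)
  rwa [zero_add, pow_one] at h2

open Classical in
/-- the normalised central value is an integer -/
lemma val_int (hpos : ∀ v, dg v ≠ 0) (hfin : ∀ n, {v | dg v ≤ n}.Finite) {q c D : ℕ} (hq : 0 < q)
    (hP : ∀ v, (P v).coeff 0 = 1) (hD : ∀ v, (P v).natDegree ≤ D) {X : Type} [CommGroup X]
    {T : X → Finset ι} {χ : X → ι → ℂ} {L : X → ℂ[X]} (hχ : CGf T χ)
    (hL : (L 1 : PowerSeries ℂ) * eulerProd dg (fun v => ((tw (P v) (χ 1 v) (dg v) : ℂ[X]) :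
      PowerSeries ℂ)) = 1) (hdeg : (L 1).natDegree ≤ c + D * ∑ v ∈ T 1, dg v) :
    ∃ M : ℤ, (q : ℂ) ^ c * (L 1).eval (q : ℂ)⁻¹ = M := by
  have h1 := sum_eq (T' := ∅) hpos hfin hq hP hD hχ hL hdeg (by rw [hχ.T1])
  refine ⟨∑ u ∈ sF dg hfin c D ∅, wF dg hfin P q c D ∅ u, ?_⟩
  have h2 : vl dg P q c D T χ L ∅ 1 = (q : ℂ) ^ c * (L 1).eval (q : ℂ)⁻¹ := by
    unfold vl NN
    rw [sum_empty, Nat.mul_zero, Nat.add_zero, empty_sdiff, prod_empty, mul_one]
  rw [← h2, ← h1]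
  push_cast
  refine Finset.sum_congr rfl fun u _ => ?_
  have h3 : eF dg hfin c D χ ∅ u (1 : X) = 1 := by
    unfold eF
    exact prod_eq_one fun v _ => by rw [hχ.one, one_pow]
  rw [h3, mul_one]

end val

end Pool.Agent.H92F
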