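import Pool.Agent.H92.Multi

/-!
# The theorem of Ramsey type for a property of the elements of a group
-/

set_option autoImplicit false
set_option linter.unusedSectionVars false

namespace Pool.Agent.H92F

open Finset
open Pool.Agent.H92
open Pool.Agent.Y683.CG

variable {X : Type} [CommGroup X]

/-- the theorem of Ramsey type for the property `N`, with the bounds `L` -/
def Ram (d : ℕ) (L : ℕ → ℕ) (N : X → Prop) : Prop :=
  ∀ (τ : Fin d → X →* X) (g : ℕ → X), ∃ B : ℕ → Finset ℕ,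
    (∀ k, (B k).Nonempty ∧ B k ⊆ Ico (L k) (L (k + 1))) ∧ ∀ x ∈ clo τ g B, N x

lemma ram_true (d : ℕ) : Ram d (fun k => k) (fun _ : X => True) :=
  fun _ _ => ⟨fun k => {k}, fun k => ⟨singleton_nonempty k, by simp⟩, fun _ _ => trivial⟩

lemma Ram.mono {d : ℕ} {L : ℕ → ℕ} {N N' : X → Prop} (h : Ram d L N) (hN : ∀ x, N x → N' x) :
    Ram d L N' := by
  intro τ g
  obtain ⟨B, h1, h2⟩ := h τ g
  exact ⟨B, h1, fun x hx => hN x (h2 x hx)⟩

lemma clo_eq {d : ℕ} (τ : Fin d → X →* X) {g g' : ℕ → X} {B B' : ℕ → Finset ℕ}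
    (h : ∀ k, ∏ j ∈ B k, g j = ∏ j ∈ B' k, g' j) : clo τ g B = clo τ g' B' := by
  unfold clo
  simp only [h]

lemma Ram.and {d : ℕ} {L L' : ℕ → ℕ} {N N' : X → Prop} (h : Ram d L N) (h' : Ram d L' N') :
    Ram d (fun k => L (L' k)) (fun x => N x ∧ N' x) := by
  classical
  intro τ g
  obtain ⟨B, hB1, hB2⟩ := h τ g
  obtain ⟨B', hB1', hB2'⟩ := h' τ fun k => ∏ j ∈ B k, g j
  have hLlt : ∀ k, L k < L (k + 1) := by
    intro k
    obtain ⟨x, hx⟩ := (hB1 k).1
    have h5 := mem_Ico.1 ((hB1 k).2 hx)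
    omega
  have hLm : StrictMono L := strictMono_nat_of_lt_succ hLlt
  have hdis : ∀ i j, i ≠ j → Disjoint (B i) (B j) := by
    have h1 : ∀ i j, i < j → Disjoint (B i) (B j) := by
      intro i j hij
      rw [disjoint_left]
      intro x hx hx'
      have h2 := mem_Ico.1 ((hB1 i).2 hx)
      have h3 := mem_Ico.1 ((hB1 j).2 hx')
      have h4 := hLm.monotone (by omega : i + 1 ≤ j)
      omega
    intro i j hij
    rcases lt_or_gt_of_ne hij with h2 | h2
    · exact h1 i j h2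
    · exact (h1 j i h2).symm
  have hprod : ∀ k, ∏ j ∈ (B' k).biUnion B, g j = ∏ i ∈ B' k, ∏ j ∈ B i, g j := fun k =>
    prod_biUnion fun i _ j _ hij => hdis i j hij
  refine ⟨fun k => (B' k).biUnion B, fun k => ⟨?_, ?_⟩, fun x hx => ?_⟩
  · obtain ⟨i, hi⟩ := (hB1' k).1
    obtain ⟨j, hj⟩ := (hB1 i).1
    exact ⟨j, mem_biUnion.2 ⟨i, hi, hj⟩⟩
  · intro j hj
    obtain ⟨i, hi, hji⟩ := mem_biUnion.1 hj
    have h1 := mem_Ico.1 ((hB1' k).2 hi)
    have h2 := mem_Ico.1 ((hB1 i).2 hji)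
    have h3 := hLm.monotone h1.1
    have h4 := hLm.monotone (by omega : i + 1 ≤ L' (k + 1))
    exact mem_Ico.2 ⟨h3.trans h2.1, lt_of_lt_of_le h2.2 h4⟩
  · have h1 : x ∈ clo τ (fun k => ∏ j ∈ B k, g j) B' := by
      rw [← clo_eq τ hprod]
      exact hx
    refine ⟨hB2 x ?_, hB2' x h1⟩
    refine (?_ : clo τ (fun k => ∏ j ∈ B k, g j) B' ≤ clo τ g B) h1
    unfold clo
    rw [Subgroup.closure_le]
    rintro _ ⟨i, k, rfl⟩
    beta_reduce
    rw [map_prod]
    exact Subgroup.prod_mem _ fun l _ => Subgroup.subset_closure ⟨i, l, rfl⟩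

/-- larger gaps are allowed -/
lemma Ram.gap {d : ℕ} {L L' : ℕ → ℕ} {N : X → Prop} (h : Ram d L N) (hm : Monotone L)
    (hg : ∀ k, L (k + 1) + L' k ≤ L' (k + 1) + L k) : Ram d L' N := by
  classical
  intro τ g
  set g' : ℕ → X := fun j => if h : ∃ k, L k ≤ j ∧ j < L (k + 1) then
    g (L' h.choose + (j - L h.choose)) else 1 with hg'
  have hval : ∀ k j, L k ≤ j → j < L (k + 1) → g' j = g (L' k + (j - L k)) := by
    intro k j h1 h2
    have h3 : ∃ k, L k ≤ j ∧ j < L (k + 1) := ⟨k, h1, h2⟩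
    have h4 : h3.choose = k := by
      obtain ⟨h5, h6⟩ := h3.choose_spec
      by_contra hne
      rcases lt_or_gt_of_ne hne with h7 | h7
      · have := hm (by omega : h3.choose + 1 ≤ k)
        omega
      · have := hm (by omega : k + 1 ≤ h3.choose)
        omega
    simp only [hg']
    rw [dif_pos h3, h4]
  obtain ⟨B, hB1, hB2⟩ := h τ g'
  refine ⟨fun k => (B k).image fun j => L' k + (j - L k), fun k => ⟨(hB1 k).1.image _, ?_⟩,
    fun x hx => ?_⟩
  · intro x hx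
    obtain ⟨j, hj, rfl⟩ := mem_image.1 hx
    have h1 := mem_Ico.1 ((hB1 k).2 hj)
    have h2 := hg k
    rw [mem_Ico]
    omega
  · refine hB2 x ?_
    rw [clo_eq τ (g' := g) (B' := fun k => (B k).image fun j => L' k + (j - L k))]
    · exact hx
    · intro k
      rw [prod_image]
      · refine prod_congr rfl fun j hj => ?_
        have h1 := mem_Ico.1 ((hB1 k).2 hj)
        exact hval k j h1.1 h1.2
      · intro i hi j hj hij
        have h1 := mem_Ico.1 ((hB1 k).2 hi)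
        have h2 := mem_Ico.1 ((hB1 k).2 hj)
        have h3 : L' k + (i - L k) = L' k + (j - L k) := hij
        omega

/-- the iterates of the bounds -/
def itL (L : ℕ → ℕ) : ℕ → ℕ → ℕ
  | 0 => fun k => k
  | m + 1 => fun k => itL L m (L k)

theorem ram_all {d : ℕ} {L : ℕ → ℕ} {m : ℕ} (N : Fin m → X → Prop) (h : ∀ i, Ram d L (N i)) :
    Ram d (itL L m) (fun x => ∀ i, N i x) := by
  induction m with
  | zero => exact (ram_true d).mono fun _ _ i => i.elim0
  | succ m ih =>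
    have h1 := ih (fun i => N i.castSucc) fun i => h i.castSucc
    refine (h1.and (h (Fin.last m))).mono fun x hx i => ?_
    refine Fin.lastCases ?_ (fun j => ?_) i
    · exact hx.2
    · exact hx.1 j

variable {Λ : Submodule ℤ ℂ} {𝔪 : Ideal (integralClosure ℤ ℂ)} {Fil : ℕ → Submodule ℤ ℂ}

/-- the towers, uniformly in the level of the filtration -/
theorem towerU (d e : ℕ) (he : 0 < e) (hF : FilX Λ 𝔪 Fil) (n1 : ℕ)
    (hroot : ∀ ζ : ℂ, ζ ^ e = 1 → ζ ∈ mulR Λ ∧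
        ∃ y : integralClosure ℤ ℂ, (y : ℂ) = ζ - 1 ∧ y ∈ 𝔪) :
    ∃ L : ℕ → ℕ, Monotone L ∧ ∀ n0 ≤ n1, ∀ (X U ι : Type) [CommGroup X] [DecidableEq ι]
      (s : Finset ι → Finset U) (ev : Finset ι → U → X → ℂ) (w : Finset ι → U → ℂ)
      (S : X → Finset ι) (A : Finset ι → Prop) (_ : Lev Λ (Fil (n0 + 1)) e s ev w S A)
      (_ : ∀ T T', T ⊆ T' → A T' → A T) (_ : ∀ x, A (S x)),
      Ram d L fun x : X => ∃ T, A T ∧ S x ⊆ T ∧
        (∑ u ∈ s T, w T u * ev T u x) - ∑ u ∈ s T, w T u ∈ Fil (n0 + 1) := by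
  classical
  choose L hL using fun n0 => towerE d e he hF n0 hroot
  set L' : ℕ → ℕ := fun k => ∑ i ∈ range k, ∑ j ∈ range (n1 + 1), (L j (i + 1) - L j i) with hL'
  have hL'1 : ∀ k, L' (k + 1) = L' k + ∑ j ∈ range (n1 + 1), (L j (k + 1) - L j k) :=
    fun k => sum_range_succ _ _
  refine ⟨L', monotone_nat_of_le_succ fun k => by rw [hL'1]; omega, fun n0 hn0 X U ι _ _ s ev w S A
    hLev hA hS => ?_⟩
  have h1 : Ram d (L n0) fun x : X => ∃ T, A T ∧ S x ⊆ T ∧
        (∑ u ∈ s T, w T u * ev T u x) - ∑ u ∈ s T, w T u ∈ Fil (n0 + 1) := fun τ g =>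
    hL n0 X U ι s ev w S A hLev hA τ g fun i j => hS _
  have hmono : Monotone (L n0) := by
    refine monotone_nat_of_le_succ fun k => ?_
    obtain ⟨B, hB1, -⟩ := h1 (fun _ => MonoidHom.id X) fun _ => 1
    obtain ⟨x, hx⟩ := (hB1 k).1
    have h2 := mem_Ico.1 ((hB1 k).2 hx)
    omega
  refine h1.gap hmono fun k => ?_
  have h2 : L n0 (k + 1) - L n0 k ≤ ∑ j ∈ range (n1 + 1), (L j (k + 1) - L j k) :=
    single_le_sum (f := fun j => L j (k + 1) - L j k) (fun _ _ => Nat.zero_le _)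
      (mem_range.2 (by omega))
  have h3 := hmono (Nat.le_succ k)
  rw [hL'1]
  have h4 : (k.succ) = k + 1 := rfl
  rw [h4] at h3
  omega

end Pool.Agent.H92F
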