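import Pool.Agent.H92F.Ram

/-!
# The theorem of Ramsey type for several sequences
-/

set_option autoImplicit false
set_option linter.unusedSectionVars false

namespace Pool.Agent.H92F

open Finset
open Pool.Agent.H92
open Pool.Agent.Y683.CG

variable {X : Type} [CommGroup X]

/-- the subgroup generated by the products over the blocks -/
def cls {d : ℕ} (h : Fin d → ℕ → X) (B : ℕ → Finset ℕ) : Subgroup X :=
  Subgroup.closure {y | ∃ i k, y = ∏ j ∈ B k, h i j}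

/-- the theorem of Ramsey type for the property `N`, with the bounds `L`, for `d` sequences -/
def RamS (d : ℕ) (L : ℕ → ℕ) (N : X → Prop) : Prop :=
  ∀ h : Fin d → ℕ → X, ∃ B : ℕ → Finset ℕ,
    (∀ k, (B k).Nonempty ∧ B k ⊆ Ico (L k) (L (k + 1))) ∧ ∀ x ∈ cls h B, N x

lemma RamS.toRam {d : ℕ} {L : ℕ → ℕ} {N : X → Prop} (h : RamS d L N) : Ram d L N := by
  intro τ g
  obtain ⟨B, h1, h2⟩ := h fun i j => τ i (g j)
  refine ⟨B, h1, fun x hx => h2 x ?_⟩
  have h3 : clo τ g B = cls (fun i j => τ i (g j)) B := by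
    unfold clo cls
    simp only [map_prod]
  rw [← h3]
  exact hx

lemma RamS.mono {d : ℕ} {L : ℕ → ℕ} {N N' : X → Prop} (h : RamS d L N) (hN : ∀ x, N x → N' x) :
    RamS d L N' := by
  intro τ
  obtain ⟨B, h1, h2⟩ := h τ
  exact ⟨B, h1, fun x hx => hN x (h2 x hx)⟩

lemma ramS_true (d : ℕ) : RamS d (fun k => k) (fun _ : X => True) :=
  fun _ => ⟨fun k => {k}, fun k => ⟨singleton_nonempty k, by simp⟩, fun _ _ => trivial⟩

/-- several sequences are one sequence in a larger group -/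
lemma ramS_of_pull {d : ℕ} {L : ℕ → ℕ} {N : X → Prop}
    (h : Ram d L (fun x : (Fin d → X) × X => N x.2)) : RamS d L N := by
  intro f
  set τ : Fin d → (Fin d → X) × X →* (Fin d → X) × X := fun i =>
    (MonoidHom.inr (Fin d → X) X).comp ((Pi.evalMonoidHom (fun _ => X) i).comp
      (MonoidHom.fst (Fin d → X) X)) with hτ
  obtain ⟨B, h1, h2⟩ := h τ fun j => (fun i => f i j, 1)
  refine ⟨B, h1, fun x hx => ?_⟩
  refine h2 (1, x) ?_
  have h3 : (cls f B).map (MonoidHom.inr (Fin d → X) X) ≤ clo τ (fun j => (fun i => f i j, 1)) B := by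
    unfold cls
    rw [MonoidHom.map_closure, Subgroup.closure_le]
    rintro _ ⟨_, ⟨i, k, rfl⟩, rfl⟩
    refine Subgroup.subset_closure ⟨i, k, ?_⟩
    rw [map_prod, map_prod]
    rfl
  exact h3 ⟨x, hx, rfl⟩

/-- the second property may depend on the first -/
lemma RamS.and_cond {d : ℕ} {L L' : ℕ → ℕ} {N N' : X → Prop} (h : RamS d L N)
    (h' : ∀ Y : Subgroup X, (∀ y ∈ Y, N y) → RamS d L' (fun y : Y => N' y)) :
    RamS d (fun k => L (L' k)) (fun x => N x ∧ N' x) := by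
  classical
  intro f
  obtain ⟨B, hB1, hB2⟩ := h f
  set Y := cls f B with hY
  have hgen : ∀ i k, ∏ j ∈ B k, f i j ∈ Y := fun i k => Subgroup.subset_closure ⟨i, k, rfl⟩
  obtain ⟨B', hB1', hB2'⟩ := h' Y hB2 fun i k => ⟨∏ j ∈ B k, f i j, hgen i k⟩
  have hLlt : ∀ k, L k < L (k + 1) := by
    intro k
    obtain ⟨x, hx⟩ := (hB1 k).1
    have h5 := mem_Ico.1 ((hB1 k).2 hx)
    omega
  have hLm : StrictMono L := strictMono_nat_of_lt_succ hLlt
  have hdis : ∀ i j, i ≠ j → Disjoint (B i) (B j) := by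
    have h1 : ∀ i j, i < j → Disjoint (B i) (B j) := by
      intro i j hij
      rw [disjoint_left]
      intro x hx hx'
      have h2 := mem_Ico.1 ((hB1 i).2 hx)
      have h3 := mem_Ico.1 ((hB1 j).2 hx')
      have h4 := hLm.monotone (by omega : i + 1 ≤ j)
      omega
    intro i j hij
    rcases lt_or_gt_of_ne hij with h2 | h2
    · exact h1 i j h2
    · exact (h1 j i h2).symm
  have hprod : ∀ i k, ∏ j ∈ (B' k).biUnion B, f i j = ∏ l ∈ B' k, ∏ j ∈ B l, f i j := fun i k =>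
    prod_biUnion fun i _ j _ hij => hdis i j hij
  refine ⟨fun k => (B' k).biUnion B, fun k => ⟨?_, ?_⟩, fun x hx => ?_⟩
  · obtain ⟨i, hi⟩ := (hB1' k).1
    obtain ⟨j, hj⟩ := (hB1 i).1
    exact ⟨j, mem_biUnion.2 ⟨i, hi, hj⟩⟩
  · intro j hj
    obtain ⟨i, hi, hji⟩ := mem_biUnion.1 hj
    have h1 := mem_Ico.1 ((hB1' k).2 hi)
    have h2 := mem_Ico.1 ((hB1 i).2 hji)
    have h3 := hLm.monotone h1.1
    have h4 := hLm.monotone (by omega : i + 1 ≤ L' (k + 1))
    exact mem_Ico.2 ⟨h3.trans h2.1, lt_of_lt_of_le h2.2 h4⟩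
  · have h1 : cls f (fun k => (B' k).biUnion B) ≤
        (cls (fun i k => (⟨∏ j ∈ B k, f i j, hgen i k⟩ : Y)) B').map Y.subtype := by
      unfold cls
      rw [MonoidHom.map_closure, Subgroup.closure_le]
      rintro _ ⟨i, k, rfl⟩
      refine Subgroup.subset_closure ⟨∏ l ∈ B' k, ⟨∏ j ∈ B l, f i j, hgen i l⟩, ⟨i, k, rfl⟩, ?_⟩
      rw [map_prod, hprod]
      rfl
    obtain ⟨y, hy, rfl⟩ := h1 hx
    exact ⟨hB2 y y.2, hB2' y hy⟩

lemma RamS.and {d : ℕ} {L L' : ℕ → ℕ} {N N' : X → Prop} (h : RamS d L N) (h' : RamS d L' N') :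
    RamS d (fun k => L (L' k)) (fun x => N x ∧ N' x) := by
  refine h.and_cond fun Y _ => ?_
  intro f
  obtain ⟨B, h1, h2⟩ := h' fun i j => (f i j : X)
  refine ⟨B, h1, fun x hx => h2 x ?_⟩
  have h3 : (cls f B).map Y.subtype ≤ cls (fun i j => (f i j : X)) B := by
    unfold cls
    rw [MonoidHom.map_closure, Subgroup.closure_le]
    rintro _ ⟨_, ⟨i, k, rfl⟩, rfl⟩
    refine Subgroup.subset_closure ⟨i, k, ?_⟩
    rw [map_prod]
    rfl
  exact h3 ⟨x, hx, rfl⟩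

theorem ramS_all {d : ℕ} {L : ℕ → ℕ} {m : ℕ} (N : Fin m → X → Prop) (h : ∀ i, RamS d L (N i)) :
    RamS d (itL L m) (fun x => ∀ i, N i x) := by
  induction m with
  | zero => exact (ramS_true d).mono fun _ _ i => i.elim0
  | succ m ih =>
    have h1 := ih (fun i => N i.castSucc) fun i => h i.castSucc
    refine (h1.and (h (Fin.last m))).mono fun x hx i => ?_
    refine Fin.lastCases ?_ (fun j => ?_) i
    · exact hx.2
    · exact hx.1 j

variable {Λ : Submodule ℤ ℂ} {𝔪 : Ideal (integralClosure ℤ ℂ)} {Fil : ℕ → Submodule ℤ ℂ}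

/-- the towers, uniformly in the level of the filtration, for several sequences -/
theorem towerS (d e : ℕ) (he : 0 < e) (hF : FilX Λ 𝔪 Fil) (n1 : ℕ)
    (hroot : ∀ ζ : ℂ, ζ ^ e = 1 → ζ ∈ mulR Λ ∧
        ∃ y : integralClosure ℤ ℂ, (y : ℂ) = ζ - 1 ∧ y ∈ 𝔪) :
    ∃ L : ℕ → ℕ, Monotone L ∧ ∀ n0 ≤ n1, ∀ (X U ι : Type) [CommGroup X] [DecidableEq ι]
      (s : Finset ι → Finset U) (ev : Finset ι → U → X → ℂ) (w : Finset ι → U → ℂ)
      (S : X → Finset ι) (A : Finset ι → Prop) (_ : Lev Λ (Fil (n0 + 1)) e s ev w S A)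
      (_ : ∀ T T', T ⊆ T' → A T' → A T) (_ : ∀ x, A (S x)),
      RamS d L fun x : X => ∃ T, A T ∧ S x ⊆ T ∧
        (∑ u ∈ s T, w T u * ev T u x) - ∑ u ∈ s T, w T u ∈ Fil (n0 + 1) := by
  obtain ⟨L, hm, hL⟩ := towerU d e he hF n1 hroot
  refine ⟨L, hm, fun n0 hn0 X U ι _ _ s ev w S A hLev hA hS => ramS_of_pull ?_⟩
  refine hL n0 hn0 ((Fin d → X) × X) U ι s (fun T u x => ev T u x.2) w (fun x => S x.2) A
    ⟨fun x => ?_, hLev.hS1, fun x y => hLev.hSm _ _, fun T u hu => hLev.one T u hu,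
      fun T u hu x y hx hy => hLev.mul T u hu _ _ hx hy, hLev.hA, hLev.hA0, hLev.hw,
      fun T T' h1 h2 h3 x hx => hLev.hmono T T' h1 h2 h3 _ hx⟩ hA fun x => hS _
  refine Prod.ext ?_ (hLev.hX _)
  funext i
  exact hLev.hX _

end Pool.Agent.H92F
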