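import Pool.Agent.H92F.Fun

/-!
# Taylor coefficients at the central point
-/

set_option autoImplicit false
set_option linter.unusedSectionVars false

namespace Pool.Agent.H92F

open Finset Polynomial
open Pool.Agent.W343.BSD
open Pool.Agent.Y683.CG
open Pool.Agent.H92 Pool.Agent.H92P

/-- the coefficient of `ε^j` in `F((1 + ε)/q)` -/
noncomputable def tc (q j : ℕ) (F : ℂ[X]) : ℂ := (F.comp (C (q : ℂ)⁻¹ * (1 + X))).coeff j

lemma tc_zero (q : ℕ) (F : ℂ[X]) : tc q 0 F = F.eval (q : ℂ)⁻¹ := by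
  unfold tc
  rw [coeff_zero_eq_eval_zero, eval_comp]
  simp

lemma tc_mul (q j : ℕ) (F G : ℂ[X]) :
    tc q j (F * G) = ∑ x ∈ antidiagonal j, tc q x.1 F * tc q x.2 G := by
  unfold tc
  rw [mul_comp, coeff_mul]

lemma tc_formula {q : ℕ} (hq : 0 < q) {N : ℕ} {F : ℂ[X]} (hF : F.natDegree ≤ N) (j : ℕ) :
    (q : ℂ) ^ N * tc q j F =
      ∑ k ∈ range (N + 1), (k.choose j : ℂ) * (q : ℂ) ^ (N - k) * F.coeff k := by
  have hq0 : (q : ℂ) ≠ 0 := by exact_mod_cast hq.ne'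
  unfold tc
  rw [comp, eval₂_eq_sum_range' C (Nat.lt_succ_of_le hF), finset_sum_coeff, Finset.mul_sum]
  refine Finset.sum_congr rfl fun k hk => ?_
  have hk' : k ≤ N := Nat.lt_succ_iff.1 (mem_range.1 hk)
  rw [mul_pow, ← C_pow, ← mul_assoc, ← C_mul, coeff_C_mul, coeff_one_add_X_pow]
  have e1 : (q : ℂ) ^ N = (q : ℂ) ^ (N - k) * (q : ℂ) ^ k := by
    rw [← pow_add, Nat.sub_add_cancel hk']
  have e2 : (q : ℂ) ^ k * ((q : ℂ)⁻¹) ^ k = 1 := by
    rw [← mul_pow, mul_inv_cancel₀ hq0, one_pow]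
  rw [e1]
  linear_combination ((q : ℂ) ^ (N - k) * F.coeff k * (k.choose j : ℂ)) * e2

lemma tc_dvd {q : ℕ} {F : ℂ[X]} {m j : ℕ} (h : (X - C (q : ℂ)⁻¹) ^ m ∣ F) (hj : j < m) :
    tc q j F = 0 := by
  obtain ⟨G, rfl⟩ := h
  unfold tc
  have e1 : ((X - C (q : ℂ)⁻¹) ^ m * G).comp (C (q : ℂ)⁻¹ * (1 + X)) =
      X ^ m * (C ((q : ℂ)⁻¹ ^ m) * G.comp (C (q : ℂ)⁻¹ * (1 + X))) := by
    rw [mul_comp, pow_comp, sub_comp, X_comp, C_comp]
    have e2 : C (q : ℂ)⁻¹ * (1 + X) - C (q : ℂ)⁻¹ = C (q : ℂ)⁻¹ * X := by ring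
    rw [e2, mul_pow, ← C_pow]
    ring
  rw [e1, coeff_X_pow_mul', if_neg (by omega)]

lemma tc_lead {q : ℕ} (hq : 0 < q) {U : ℂ[X]} {r : ℕ} :
    (∀ j < r, tc q j ((1 - C (q : ℂ) * X) ^ r * U) = 0) ∧
      tc q r ((1 - C (q : ℂ) * X) ^ r * U) = (-1) ^ r * U.eval (q : ℂ)⁻¹ := by
  have hq0 : (q : ℂ) ≠ 0 := by exact_mod_cast hq.ne'
  have e1 : ((1 - C (q : ℂ) * X) ^ r * U).comp (C (q : ℂ)⁻¹ * (1 + X)) =
      X ^ r * (C ((-1) ^ r) * U.comp (C (q : ℂ)⁻¹ * (1 + X))) := by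
    rw [mul_comp, pow_comp, sub_comp, mul_comp, X_comp, C_comp, one_comp]
    have e2 : (1 : ℂ[X]) - C (q : ℂ) * (C (q : ℂ)⁻¹ * (1 + X)) = C (-1) * X := by
      rw [← mul_assoc, ← C_mul, mul_inv_cancel₀ hq0, C_1, one_mul, C_neg, C_1]
      ring
    rw [e2, mul_pow, ← C_pow]
    ring
  constructor
  · intro j hj
    unfold tc
    rw [e1, coeff_X_pow_mul', if_neg (by omega)]
  · unfold tc
    rw [e1, coeff_X_pow_mul', if_pos le_rfl, Nat.sub_self, coeff_C_mul, coeff_zero_eq_eval_zero,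
      eval_comp]
    simp

section eul

variable {ι : Type} {dg : ι → ℕ} {P : ι → ℤ[X]} {X' : Type} [CommGroup X'] {T : X' → Finset ι}
  {χ : X' → ι → ℂ} {L : X' → ℂ[X]}

/-- the Taylor coefficients of the product of the Euler factors -/
noncomputable def Aj (dg : ι → ℕ) (P : ι → ℤ[X]) (q D : ℕ) (χ : X' → ι → ℂ) (a : ℕ)
    (R : Finset ι) (g : X') : ℂ :=
  (q : ℂ) ^ (D * ∑ v ∈ R, dg v) * tc q a (∏ v ∈ R, tw (P v) (χ g v) (dg v))

open Classical in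
/-- the Taylor coefficients of the imprimitive L-function -/
noncomputable def vj (dg : ι → ℕ) (P : ι → ℤ[X]) (q c D : ℕ) (T : X' → Finset ι)
    (χ : X' → ι → ℂ) (L : X' → ℂ[X]) (j : ℕ) (T' : Finset ι) (g : X') : ℂ :=
  (q : ℂ) ^ NN dg c D T' * tc q j (L g * ∏ v ∈ T' \ T g, tw (P v) (χ g v) (dg v))

open Classical in
lemma vj_lev {q c D : ℕ} {g : X'} {T' T'' : Finset ι} (h1 : T g ⊆ T') (h2 : T' ⊆ T'') (j : ℕ) :
    vj dg P q c D T χ L j T'' g = ∑ x ∈ antidiagonal j,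
      Aj dg P q D χ x.1 (T'' \ T') g * vj dg P q c D T χ L x.2 T' g := by
  have e1 : T'' \ T g = (T'' \ T') ∪ (T' \ T g) := by
    ext v
    simp only [mem_sdiff, mem_union]
    constructor
    · rintro ⟨h3, h4⟩
      by_cases h5 : v ∈ T'
      · exact Or.inr ⟨h5, h4⟩
      · exact Or.inl ⟨h3, h5⟩
    · rintro (⟨h3, h4⟩ | ⟨h3, h4⟩)
      · exact ⟨h3, fun h5 => h4 (h1 h5)⟩
      · exact ⟨h2 h3, h4⟩
  have hdis : Disjoint (T'' \ T') (T' \ T g) := by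
    rw [Finset.disjoint_left]
    intro v hv hv'
    exact (mem_sdiff.1 hv).2 (mem_sdiff.1 hv').1
  have e2 : NN dg c D T'' = NN dg c D T' + D * ∑ v ∈ T'' \ T', dg v := by
    unfold NN
    rw [← sum_sdiff h2]
    ring
  unfold vj Aj
  have e3 : L g * ((∏ v ∈ T'' \ T', tw (P v) (χ g v) (dg v)) *
      ∏ v ∈ T' \ T g, tw (P v) (χ g v) (dg v)) = (∏ v ∈ T'' \ T', tw (P v) (χ g v) (dg v)) *
      (L g * ∏ v ∈ T' \ T g, tw (P v) (χ g v) (dg v)) := by ring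
  rw [e1, prod_union hdis, e2, pow_add, e3, tc_mul, Finset.mul_sum]
  exact Finset.sum_congr rfl fun x _ => by ring

lemma Aj_zero {q D : ℕ} (hq : 0 < q) (hD : ∀ v, (P v).natDegree ≤ D) (R : Finset ι) (g : X') :
    Aj dg P q D χ 0 R g = ∏ v ∈ R, Qf dg P q D v (χ g v) := by
  unfold Aj
  rw [tc_zero, eval_prod, Finset.mul_sum, ← Finset.prod_pow_eq_pow_sum, ← prod_mul_distrib]
  exact prod_congr rfl fun v _ => q_tw hq v (hD v) _

lemma coeff_prod_mem (A : Subalgebra ℤ ℂ) (R : Finset ι) (F : ι → ℂ[X])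
    (h : ∀ v ∈ R, ∀ k, (F v).coeff k ∈ A) : ∀ k, (∏ v ∈ R, F v).coeff k ∈ A := by
  classical
  induction R using Finset.induction_on with
  | empty =>
    intro k
    rw [prod_empty, coeff_one]
    split_ifs
    · exact A.one_mem
    · exact A.zero_mem
  | insert v R hv ih =>
    intro k
    rw [prod_insert hv, coeff_mul]
    exact A.sum_mem fun x _ => A.mul_mem (h v (mem_insert_self v R) _)
      (ih (fun w hw => h w (mem_insert_of_mem hw)) _)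

lemma tw_mem {e : ℕ} {z : ℂ} (hz : z ^ e = 1) (Q : ℤ[X]) {n : ℕ} (hn : n ≠ 0) (k : ℕ) :
    (tw Q z n).coeff k ∈ mulR (Rt e) := by
  have h1 : (tw Q z n).coeff k = PowerSeries.coeff k ((tw Q z n : ℂ[X]) : PowerSeries ℂ) := by
    rw [Polynomial.coeff_coe]
  rw [h1, tw_coe Q z hn, coeff_tws]
  split_ifs
  · refine Subalgebra.mul_mem _ (Subalgebra.pow_mem _ (rt_root hz) _) ?_
    exact rt_mulR_int e _
  · exact Subalgebra.zero_mem _

lemma Aj_mem {q D e : ℕ} (hq : 0 < q) (hpos : ∀ v, dg v ≠ 0) (hD : ∀ v, (P v).natDegree ≤ D)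
    {R : Finset ι} {g : X'} (hR : ∀ v ∈ R, χ g v ^ e = 1) (a : ℕ) :
    Aj dg P q D χ a R g ∈ mulR (Rt e) := by
  unfold Aj
  have h1 : (∏ v ∈ R, tw (P v) (χ g v) (dg v)).natDegree ≤ D * ∑ v ∈ R, dg v := by
    rw [Finset.mul_sum]
    exact (natDegree_prod_le _ _).trans (sum_le_sum fun v _ => natDegree_tw_le _ _ _ (hD v))
  rw [tc_formula hq h1]
  refine Subalgebra.sum_mem _ fun k _ => Subalgebra.mul_mem _ (Subalgebra.mul_mem _ ?_ ?_)
    (coeff_prod_mem _ _ _ (fun v hv => tw_mem (hR v hv) _ (hpos v)) k)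
  · have h2 := rt_mulR_int e (k.choose a)
    push_cast at h2
    exact h2
  · have h2 := rt_mulR_int e ((q : ℤ) ^ (D * ∑ v ∈ R, dg v - k))
    push_cast at h2
    exact h2

variable (hpos : ∀ v, dg v ≠ 0) (hfin : ∀ n, {v | dg v ≤ n}.Finite)

open Classical in
/-- the weights -/
noncomputable def wj (dg : ι → ℕ) (hfin : ∀ n, {v | dg v ≤ n}.Finite) (P : ι → ℤ[X]) (q c D : ℕ)
    (j : ℕ) (T' : Finset ι) (u : Σ _ : ℕ, ι →₀ ℕ) : ℤ :=
  (u.1.choose j : ℤ) * wF dg hfin P q c D T' u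

include hpos in
open Classical in
lemma vj_sum {q c D : ℕ} (hq : 0 < q) (hP : ∀ v, (P v).coeff 0 = 1)
    (hD : ∀ v, (P v).natDegree ≤ D) (hχ : CGf T χ) {g : X'}
    (hL : (L g : PowerSeries ℂ) * eulerProd dg (fun v => ((tw (P v) (χ g v) (dg v) : ℂ[X]) :
      PowerSeries ℂ)) = 1) (hdeg : (L g).natDegree ≤ c + D * ∑ v ∈ T g, dg v) {T' : Finset ι}
    (hT : T g ⊆ T') (j : ℕ) :
    ∑ u ∈ sF dg hfin c D T', (wj dg hfin P q c D j T' u : ℂ) * eF dg hfin c D χ T' u g =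
      vj dg P q c D T χ L j T' g := by
  have hq0 : (q : ℂ) ≠ 0 := by exact_mod_cast hq.ne'
  unfold vj
  set F := L g * ∏ v ∈ T' \ T g, tw (P v) (χ g v) (dg v) with hF
  have hFd : F.natDegree ≤ NN dg c D T' := by
    rw [hF]
    refine natDegree_mul_le.trans ?_
    have h1 : (∏ v ∈ T' \ T g, tw (P v) (χ g v) (dg v)).natDegree ≤ ∑ v ∈ T' \ T g, D * dg v :=
      (natDegree_prod_le _ _).trans (sum_le_sum fun v _ => natDegree_tw_le _ _ _ (hD v))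
    unfold NN
    rw [← Finset.mul_sum] at h1
    rw [← sum_sdiff hT, Nat.mul_add]
    omega
  rw [tc_formula hq hFd]
  unfold sF
  rw [Finset.sum_sigma]
  refine Finset.sum_congr rfl fun k hk => ?_
  have hk' : k ≤ NN dg c D T' := Nat.lt_succ_iff.1 (mem_range.1 hk)
  have h1 := coeff_impr hpos hfin hP (χ := χ g) hL (T0 := T g) (T' := T')
    (fun v hv => (hχ.zero g v).2 hv) hT (NN dg c D T') hk'
  rw [← hF] at h1
  rw [h1, PowerSeries.coeff_prod, Finset.mul_sum]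
  refine Finset.sum_congr rfl fun l _ => ?_
  unfold wj wF eF
  simp only
  push_cast
  have e3 : (∏ v ∈ (hfin (NN dg c D T')).toFinset \ T', PowerSeries.coeff (l v)
      (tws (dg v) (hpos v) (χ g v) (inv' (P v)))) =
      (∏ v ∈ (hfin (NN dg c D T')).toFinset \ T', (if dg v ∣ l v then
        ((PowerSeries.coeff (l v / dg v) (inv' (P v)) : ℤ) : ℂ) else 0)) *
        ∏ v ∈ (hfin (NN dg c D T')).toFinset \ T', χ g v ^ (l v / dg v) := by
    rw [← prod_mul_distrib]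
    refine prod_congr rfl fun v _ => ?_
    rw [coeff_tws]
    split_ifs
    · ring
    · ring
  rw [e3]
  ring

end eul

end Pool.Agent.H92F
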