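import Pool.Agent.H92F.Fun
import Pool.Agent.H92P.BiaCP

/-!
# Uniform towers of characters with nonzero values of the L-functions, over function fields
-/

set_option autoImplicit false
set_option linter.unusedSectionVars false

namespace Pool.Agent.H92F

open Finset Polynomial
open Pool.Agent.W343.BSD
open Pool.Agent.Y683.CG
open Pool.Agent.H92 Pool.Agent.H92P

/-- the factors are congruent -/
lemma q2_Qf {l : ℕ} (hl : l.Prime) {b : ℕ} {𝔪 : Ideal (integralClosure ℤ ℂ)} (hp : 𝔪.IsPrime)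
    (h2 : (l : integralClosure ℤ ℂ) ∈ 𝔪) {ι : Type} {dg : ι → ℕ} {P : ι → ℤ[X]} {q D : ℕ} {v : ι}
    (hv : ¬ (l : ℤ) ∣ Qi dg P q D v) {ζ : ℂ} (hζ : ζ ^ l ^ b = 1) :
    Q2 (Rt (l ^ b)) 𝔪 (Qf dg P q D v ζ) (Qf dg P q D v 1) := by
  have he : 0 < l ^ b := pow_pos hl.pos b
  set z : integralClosure ℤ ℂ := ⟨ζ, root_int he hζ⟩ with hz
  have m1 := lam_powp hl 𝔪 hp h2 b z (Subtype.ext hζ)
  have hmem : ∀ ξ : ℂ, ξ ^ l ^ b = 1 → Qf dg P q D v ξ ∈ mulR (Rt (l ^ b)) := by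
    intro ξ hξ
    refine Subalgebra.sum_mem _ fun j _ => Subalgebra.mul_mem _ ?_
      (Subalgebra.pow_mem _ (rt_root hξ) j)
    have h1 := rt_mulR_int (l ^ b) ((P v).coeff j * (q : ℤ) ^ (dg v * (D - j)))
    push_cast at h1
    exact h1
  refine ⟨hmem ζ hζ, hmem 1 (one_pow _), ∑ j ∈ range (D + 1), ((P v).coeff j : integralClosure ℤ ℂ) *
      (q : integralClosure ℤ ℂ) ^ (dg v * (D - j)) * z ^ j,
    ((Qi dg P q D v : ℤ) : integralClosure ℤ ℂ), ?_, ?_, ?_, ?_⟩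
  · unfold Qf
    push_cast
    rfl
  · rw [Qf_one]
    push_cast
    rfl
  · unfold Qi
    push_cast
    rw [← Finset.sum_sub_distrib]
    refine Ideal.sum_mem _ fun j _ => ?_
    have h3 : z ^ j - 1 ∈ 𝔪 := by
      obtain ⟨w, hw⟩ := sub_one_dvd_pow_sub_one z j
      rw [hw]
      exact 𝔪.mul_mem_right _ m1
    have h4 : ((P v).coeff j : integralClosure ℤ ℂ) *
      (q : integralClosure ℤ ℂ) ^ (dg v * (D - j)) * z ^ j -
        ((P v).coeff j : integralClosure ℤ ℂ) * (q : integralClosure ℤ ℂ) ^ (dg v * (D - j)) =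
        ((P v).coeff j : integralClosure ℤ ℂ) *
      (q : integralClosure ℤ ℂ) ^ (dg v * (D - j)) * (z ^ j - 1) := by ring
    rw [h4]
    exact 𝔪.mul_mem_left _ h3
  · exact int_notMem hl hv hp h2

/-- an integer not divisible by a high power of `l` is not deep in the filtration -/
lemma not_deep {l : ℕ} (hl : l.Prime) {e : ℕ} {𝔪 : Ideal (integralClosure ℤ ℂ)} (hp : 𝔪.IsPrime)
    (h2 : (l : integralClosure ℤ ℂ) ∈ 𝔪) {Fil : ℕ → Submodule ℤ ℂ} (hF : FilX (Rt e) 𝔪 Fil)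
    {n V : ℕ} (hV : ((l : ℂ) ^ n) ∉ Fil V) {M : ℤ} (hM : ¬ (l : ℤ) ^ (n + 1) ∣ M) :
    (M : ℂ) ∉ Fil V := by
  intro hMV
  have hM0 : M ≠ 0 := by
    rintro rfl
    exact hM (dvd_zero _)
  obtain ⟨a, u, hu, hau⟩ := p_part hl hM0
  have ha : a ≤ n := by
    by_contra h3
    apply hM
    rw [hau]
    exact (pow_dvd_pow _ (by omega)).mul_right _
  apply hV
  refine hF.unit V (u : ℂ) (rt_mulR_int e u) ⟨(u : integralClosure ℤ ℂ), by push_cast; rfl,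
    int_notMem hl hu hp h2⟩ _ ?_ ?_
  · have h4 := rt_int e ((l : ℤ) ^ n)
    push_cast at h4
    exact h4
  · have h4 := hF.mul V (((l : ℤ) ^ (n - a) : ℤ) : ℂ) (rt_mulR_int e _) _ hMV
    have h5 : (u : ℂ) * (l : ℂ) ^ n = (((l : ℤ) ^ (n - a) : ℤ) : ℂ) * (M : ℂ) := by
      rw [hau]
      push_cast
      have h6 : (l : ℂ) ^ n = (l : ℂ) ^ (n - a) * (l : ℂ) ^ a := by
        rw [← pow_add, Nat.sub_add_cancel ha]
      rw [h6]
      ring
    rw [h5]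
    exact h4

open Classical in
/-- **The towers, uniformly.** -/
theorem fun_tower {l : ℕ} (hl : l.Prime) (b d n : ℕ) : ∃ L' : ℕ → ℕ, Monotone L' ∧
    ∀ (ι : Type) (dg : ι → ℕ) (_ : ∀ v, dg v ≠ 0) (_ : ∀ n, {v | dg v ≤ n}.Finite)
      (q c D : ℕ) (_ : 0 < q) (P : ι → ℤ[X]) (_ : ∀ v, (P v).coeff 0 = 1)
      (_ : ∀ v, (P v).natDegree ≤ D)
      (X : Type) [CommGroup X] (T : X → Finset ι) (χ : X → ι → ℂ) (L : X → ℂ[X]),
      CGf T χ → (∀ g : X, g ^ l ^ b = 1) →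
      (∀ g, (L g : PowerSeries ℂ) * eulerProd dg (fun v =>
        ((tw (P v) (χ g v) (dg v) : ℂ[X]) : PowerSeries ℂ)) = 1) →
      (∀ g, (L g).natDegree ≤ c + D * ∑ v ∈ T g, dg v) →
      (∀ g, ∀ v ∈ T g, ¬ (l : ℤ) ∣ Qi dg P q D v) →
      ∀ M : ℤ, (q : ℂ) ^ c * (L 1).eval (q : ℂ)⁻¹ = M → ¬ (l : ℤ) ^ (n + 1) ∣ M →
      Ram d L' (fun x => (L x).eval (q : ℂ)⁻¹ ≠ 0) := by
  set e : ℕ := l ^ b with he
  have he0 : 0 < e := pow_pos hl.pos b
  obtain ⟨𝔪, hmax, hlm⟩ := exists_lam_maxp hl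
  have hp𝔪 : 𝔪.IsPrime := hmax.isPrime
  have h2𝔪 : (l : integralClosure ℤ ℂ) ∈ 𝔪 := hlm
  have hLne : Rt e ≠ ⊥ := by
    intro hbot
    have h1 := rt_one e
    rw [hbot, Submodule.mem_bot] at h1
    exact one_ne_zero h1
  obtain ⟨Fil, hF⟩ := filx_exists hl (rt_fg he0) hLne 𝔪 hmax hlm
  have hroot : ∀ ζ : ℂ, ζ ^ e = 1 → ζ ∈ mulR (Rt e) ∧
      ∃ y : integralClosure ℤ ℂ, (y : ℂ) = ζ - 1 ∧ y ∈ 𝔪 := by
    intro ζ hζ
    refine ⟨rt_root hζ, (⟨ζ, root_int he0 hζ⟩ : integralClosure ℤ ℂ) - 1, rfl, ?_⟩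
    exact lam_powp hl 𝔪 hp𝔪 h2𝔪 b _ (Subtype.ext hζ)
  obtain ⟨V, hV⟩ : ∃ V, ((l : ℂ) ^ n) ∉ Fil V := by
    refine hF.sep _ ?_ (pow_ne_zero _ (by exact_mod_cast hl.ne_zero))
    have h4 := rt_int e ((l : ℤ) ^ n)
    push_cast at h4
    exact h4
  obtain ⟨L', hmono, hL'⟩ := towerU d e he0 hF V hroot
  refine ⟨L', hmono, fun ι dg hpos hfin q c D hq P hP hD X _ T χ L hχ hXe hL hdeg hadm M hM hMn =>
    ?_⟩
  -- the value for the trivial character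
  have hMV : (M : ℂ) ∉ Fil V := not_deep hl hp𝔪 h2𝔪 hF hV hMn
  have hx0L : (M : ℂ) ∈ Rt e := rt_int e M
  obtain ⟨n0, hn0V, hn0, hn1⟩ : ∃ n0 ≤ V, (M : ℂ) ∈ Fil n0 ∧ (M : ℂ) ∉ Fil (n0 + 1) := by
    have h1 : ∃ V, (M : ℂ) ∉ Fil V := ⟨V, hMV⟩
    have h2 := Nat.find_spec h1
    have h3 : Nat.find h1 ≠ 0 := by
      intro h3
      rw [h3] at h2
      exact h2 ((hF.zero _).2 hx0L)
    have h5 : Nat.find h1 ≤ V := Nat.find_min' h1 hMV
    obtain ⟨n0, hn0⟩ : ∃ n0, Nat.find h1 = n0 + 1 := ⟨Nat.find h1 - 1, by omega⟩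
    refine ⟨n0, by omega, ?_, ?_⟩
    · have h4 := Nat.find_min h1 (m := n0) (by omega)
      rwa [not_not] at h4
    · rwa [hn0] at h2
  have hrt : ∀ g : X, ∀ T' T'' : Finset ι, T g ⊆ T' → ∀ v ∈ T'' \ T', (χ g v) ^ e = 1 := by
    intro g T' T'' h1 v hv
    exact hχ.root g (hXe g) fun h2 => (mem_sdiff.1 hv).2 (h1 h2)
  have hsum : ∀ (g : X) (T' : Finset ι), T g ⊆ T' →
      ∑ u ∈ sF dg hfin c D T', (wF dg hfin P q c D T' u : ℂ) * eF dg hfin c D χ T' u g =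
        vl dg P q c D T χ L T' g := fun g T' hT => sum_eq hpos hfin hq hP hD hχ (hL g) (hdeg g) hT
  have hsum1 : ∀ T' : Finset ι, ∑ u ∈ sF dg hfin c D T', (wF dg hfin P q c D T' u : ℂ) =
      vl dg P q c D T χ L T' 1 := by
    intro T'
    rw [← hsum 1 T' (by rw [hχ.T1]; exact empty_subset _)]
    refine Finset.sum_congr rfl fun u _ => ?_
    have h1 : eF dg hfin c D χ T' u 1 = 1 := by
      unfold eF
      exact prod_eq_one fun v _ => by rw [hχ.one, one_pow]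
    rw [h1, mul_one]
  have hone : ∀ T' : Finset ι, vl dg P q c D T χ L T' 1 =
      (∏ v ∈ T', Qf dg P q D v 1) * (M : ℂ) := by
    intro T'
    have h1 := vl_lev (dg := dg) (P := P) (T := T) (χ := χ) (L := L) (c := c) hq hD (g := 1) (T' := ∅) (T'' := T')
      (by rw [hχ.T1]) (empty_subset _)
    rw [h1, sdiff_empty]
    congr 1
    · exact prod_congr rfl fun v _ => by rw [hχ.one]
    · unfold vl NN
      rw [sum_empty, Nat.mul_zero, Nat.add_zero, empty_sdiff, prod_empty, mul_one, hM]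
  have hQ1 : ∀ T' : Finset ι, (∀ v ∈ T', ¬ (l : ℤ) ∣ Qi dg P q D v) →
      Q2 (Rt e) 𝔪 (∏ v ∈ T', Qf dg P q D v 1) (∏ v ∈ T', Qf dg P q D v 1) := fun T' hT' =>
    Q2.prod hp𝔪 _ _ _ fun v hv => q2_Qf hl hp𝔪 h2𝔪 (hT' v hv) (one_pow _)
  have hLev : Lev (Rt e) (Fil (n0 + 1)) e (sF dg hfin c D) (eF dg hfin c D χ)
      (fun T' u => (wF dg hfin P q c D T' u : ℂ)) T
      (fun T' => ∀ v ∈ T', ¬ (l : ℤ) ∣ Qi dg P q D v) := by
    refine ⟨hXe, hχ.T1, hχ.supp, fun T' u _ => ?_, fun T' u hu g g' hg hg' => ?_,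
      fun T' T'' h1 h2 v hv => ?_, fun v hv => absurd hv (notMem_empty v),
      fun T' hT' u hu => rt_int e _, fun T' T'' h1 h2 h3 g hg hgood => ?_⟩
    · unfold eF
      exact prod_eq_one fun v _ => by rw [hχ.one, one_pow]
    · unfold eF
      rw [← prod_mul_distrib]
      refine prod_congr rfl fun v hv => ?_
      have h1 : v ∉ T' := (mem_sdiff.1 hv).2
      rw [hχ.mul g g' v (fun h0 => h1 (hg ((hχ.zero g v).1 h0)))
        (fun h0 => h1 (hg' ((hχ.zero g' v).1 h0))), mul_pow]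
    · rcases mem_union.1 hv with h3 | h3
      · exact h1 v h3
      · exact h2 v h3
    · rw [hsum g T' hg, hsum1] at hgood
      rw [hsum g T'' (hg.trans h3), hsum1]
      have e1 := vl_lev (dg := dg) (P := P) (χ := χ) (L := L) (c := c) hq hD hg h3
      have e2 : vl dg P q c D T χ L T'' 1 = (∏ v ∈ T'' \ T', Qf dg P q D v 1) *
          vl dg P q c D T χ L T' 1 := by
        rw [hone T'', hone T', ← mul_assoc, prod_sdiff h3]
      have hQ : Q2 (Rt e) 𝔪 (∏ v ∈ T'' \ T', Qf dg P q D v (χ g v))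
          (∏ v ∈ T'' \ T', Qf dg P q D v 1) := by
        refine Q2.prod hp𝔪 _ _ _ fun v hv => ?_
        exact q2_Qf hl hp𝔪 h2𝔪 (h2 v (sdiff_subset hv)) (hrt g T' T'' hg v hv)
      rw [e1, e2]
      set a := ∏ v ∈ T'' \ T', Qf dg P q D v (χ g v) with ha
      set a' := ∏ v ∈ T'' \ T', Qf dg P q D v 1 with ha'
      set y := vl dg P q c D T χ L T' g with hy
      set z := vl dg P q c D T χ L T' 1 with hz
      have hz0 : z ∈ Fil n0 := by
        rw [hz, hone T']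
        exact hF.mul n0 _ (hQ1 T' h1).1 _ hn0
      have hy0 : y ∈ Fil n0 := by
        have h1 := Submodule.add_mem _ (hF.anti n0 _ hgood) hz0
        rwa [sub_add_cancel] at h1
      have h2 : a * y - a' * z = (a - a') * y + a' * (y - z) := by ring
      rw [h2]
      obtain ⟨q1, q2, x, x', hx, hx', hxx, -⟩ := hQ
      refine Submodule.add_mem _ (hF.step n0 y hy0 _ (Subalgebra.sub_mem _ q1 q2)
        ⟨x - x', ?_, hxx⟩) (hF.mul _ _ q2 _ hgood)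
      push_cast
      rw [hx, hx']
  refine (hL' n0 hn0V X (Σ _ : ℕ, ι →₀ ℕ) ι (sF dg hfin c D) (eF dg hfin c D χ)
    (fun T' u => (wF dg hfin P q c D T' u : ℂ)) T
    (fun T' => ∀ v ∈ T', ¬ (l : ℤ) ∣ Qi dg P q D v) hLev
    (fun T' T'' h1 h2 v hv => h2 v (h1 hv)) hadm).mono ?_
  rintro x ⟨T', hT', hST, hgood⟩ hx0
  rw [hsum x T' hST, hsum1, vl_lev hq hD (T' := T x) (T'' := T') subset_rfl hST] at hgood
  have h0 : vl dg P q c D T χ L (T x) x = 0 := by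
    unfold vl
    rw [Finset.sdiff_self, prod_empty, mul_one, hx0, mul_zero]
  rw [h0, mul_zero, zero_sub] at hgood
  have h3 := Submodule.neg_mem _ hgood
  rw [neg_neg, hone T'] at h3
  obtain ⟨q1, -, y, y', -, hy', -, hym⟩ := hQ1 T' hT'
  exact hn1 (hF.unit (n0 + 1) _ q1 ⟨y', hy', hym⟩ _ hx0L h3)

end Pool.Agent.H92F
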