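import Pool.Agent.H92F.Tow
import Pool.Agent.H92F.Tay
import Pool.Agent.H92F.RamS

/-!
# Towers of characters for which the order of vanishing does not increase
-/

set_option autoImplicit false
set_option linter.unusedSectionVars false

namespace Pool.Agent.H92F

open Finset Polynomial
open Pool.Agent.W343.BSD
open Pool.Agent.Y683.CG
open Pool.Agent.H92 Pool.Agent.H92P

section levels

variable {ι : Type} {dg : ι → ℕ} {P : ι → ℤ[X]} {q c D : ℕ} {X' : Type} [CommGroup X']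
  {T : X' → Finset ι} {χ : X' → ι → ℂ} {L : X' → ℂ[X]} {ρ : ℕ}

open Classical in
lemma vj_top (j : ℕ) (g : X') : vj dg P q c D T χ L j (T g) g =
    (q : ℂ) ^ NN dg c D (T g) * tc q j (L g) := by
  unfold vj
  rw [Finset.sdiff_self, prod_empty, mul_one]

open Classical in
lemma vj_one_lt (hχ : CGf T χ) (h0 : ∀ j < ρ, tc q j (L 1) = 0) {j : ℕ} (hj : j < ρ)
    (T' : Finset ι) : vj dg P q c D T χ L j T' 1 = 0 := by
  rw [vj_lev (T' := T 1) (T'' := T') subset_rfl (by rw [hχ.T1]; exact empty_subset _)]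
  refine Finset.sum_eq_zero fun x hx => ?_
  have h1 : x.1 + x.2 = j := mem_antidiagonal.1 hx
  rw [vj_top, h0 x.2 (by omega), mul_zero, mul_zero]

open Classical in
lemma vj_split {g : X'} {T' T'' : Finset ι} (h1 : T g ⊆ T') (h2 : T' ⊆ T'') (j : ℕ) :
    vj dg P q c D T χ L j T'' g =
      Aj dg P q D χ 0 (T'' \ T') g * vj dg P q c D T χ L j T' g +
      ∑ x ∈ (antidiagonal j).erase (0, j),
        Aj dg P q D χ x.1 (T'' \ T') g * vj dg P q c D T χ L x.2 T' g := by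
  rw [vj_lev h1 h2 j, ← Finset.add_sum_erase _ _ (show (0, j) ∈ antidiagonal j from by
    rw [HasAntidiagonal.mem_antidiagonal]
    exact Nat.zero_add j)]

open Classical in
lemma vj_one_split (hχ : CGf T χ) (h0 : ∀ j < ρ, tc q j (L 1) = 0) {j : ℕ} (hj : j ≤ ρ)
    {T' T'' : Finset ι} (h2 : T' ⊆ T'') :
    vj dg P q c D T χ L j T'' 1 =
      Aj dg P q D χ 0 (T'' \ T') 1 * vj dg P q c D T χ L j T' 1 := by
  rw [vj_split (by rw [hχ.T1]; exact empty_subset _) h2 j, Finset.sum_eq_zero, add_zero]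
  intro x hx
  obtain ⟨hx1, hx2⟩ := mem_erase.1 hx
  have h3 : x.1 + x.2 = j := mem_antidiagonal.1 hx2
  have h4 : x.2 < j := by
    rcases Nat.eq_zero_or_pos x.1 with h5 | h5
    · exact absurd (Prod.ext h5 (by omega)) hx1
    · omega
  rw [vj_one_lt hχ h0 (by omega), mul_zero]

variable {l b : ℕ} (hl : l.Prime) {𝔪 : Ideal (integralClosure ℤ ℂ)} (hp𝔪 : 𝔪.IsPrime)
  (h2𝔪 : (l : integralClosure ℤ ℂ) ∈ 𝔪) {Fil : ℕ → Submodule ℤ ℂ}
  (hF : FilX (Rt (l ^ b)) 𝔪 Fil) {n0 : ℕ}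
  (hpos : ∀ v, dg v ≠ 0) (hq : 0 < q) (hD : ∀ v, (P v).natDegree ≤ D)
  (hχ : CGf T χ) (hX : ∀ g : X', g ^ l ^ b = 1) (h0 : ∀ j < ρ, tc q j (L 1) = 0)
  (hM : (q : ℂ) ^ c * tc q ρ (L 1) ∈ Fil n0)

include hl hp𝔪 h2𝔪 hq hD hχ hX in
open Classical in
lemma A0_q2 {g : X'} {T' T'' : Finset ι} (h1 : T g ⊆ T')
    (hA : ∀ v ∈ T'', ¬ (l : ℤ) ∣ Qi dg P q D v) :
    Q2 (Rt (l ^ b)) 𝔪 (Aj dg P q D χ 0 (T'' \ T') g) (Aj dg P q D χ 0 (T'' \ T') 1) := by
  rw [Aj_zero hq hD, Aj_zero hq hD]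
  refine Q2.prod hp𝔪 _ _ _ fun v hv => ?_
  rw [hχ.one]
  exact q2_Qf hl hp𝔪 h2𝔪 (hA v (sdiff_subset hv))
    (hχ.root g (hX g) fun h2 => (mem_sdiff.1 hv).2 (h1 h2))

include hl hp𝔪 h2𝔪 hF hq hD hχ hX h0 hM in
open Classical in
lemma vj_one_mem {T' : Finset ι} (hA : ∀ v ∈ T', ¬ (l : ℤ) ∣ Qi dg P q D v) {j : ℕ}
    (hj : j ≤ ρ) : vj dg P q c D T χ L j T' 1 ∈ Fil n0 := by
  rcases lt_or_eq_of_le hj with h1 | rfl
  · rw [vj_one_lt hχ h0 h1]
    exact Submodule.zero_mem _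
  · rw [vj_one_split hχ h0 le_rfl (empty_subset T')]
    have h2 := A0_q2 (T' := ∅) (T'' := T') hl hp𝔪 h2𝔪 hq hD hχ hX (g := 1) (by rw [hχ.T1]) hA
    have h3 : vj dg P q c D T χ L j ∅ (1 : X') = (q : ℂ) ^ c * tc q j (L 1) := by
      have h4 := vj_top (dg := dg) (P := P) (q := q) (c := c) (D := D) (T := T) (χ := χ) (L := L)
        j (1 : X')
      rw [hχ.T1] at h4
      rw [h4]
      unfold NN
      rw [sum_empty, Nat.mul_zero, Nat.add_zero]
    rw [h3]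
    exact hF.mul n0 _ h2.1 _ hM

include hF hpos hq hD hχ hX in
open Classical in
lemma rest_mem {g : X'} {T' T'' : Finset ι} (h1 : T g ⊆ T') {j : ℕ}
    (hlow : ∀ i < j, vj dg P q c D T χ L i T' g ∈ Fil (n0 + 1)) :
    ∑ x ∈ (antidiagonal j).erase (0, j),
        Aj dg P q D χ x.1 (T'' \ T') g * vj dg P q c D T χ L x.2 T' g ∈ Fil (n0 + 1) := by
  refine Submodule.sum_mem _ fun x hx => ?_
  obtain ⟨hx1, hx2⟩ := mem_erase.1 hx
  have h3 : x.1 + x.2 = j := mem_antidiagonal.1 hx2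
  have h4 : x.2 < j := by
    rcases Nat.eq_zero_or_pos x.1 with h5 | h5
    · exact absurd (Prod.ext h5 (by omega)) hx1
    · omega
  refine hF.mul _ _ (Aj_mem hq hpos hD (fun v hv => ?_) _) _ (hlow _ h4)
  exact hχ.root g (hX g) fun h2 => (mem_sdiff.1 hv).2 (h1 h2)

include hl hp𝔪 h2𝔪 hF hpos hq hD hχ hX h0 hM in
open Classical in
/-- from a level to a larger one -/
lemma vj_up {g : X'} {T' T'' : Finset ι} (h1 : T g ⊆ T') (h2 : T' ⊆ T'')
    (hA : ∀ v ∈ T'', ¬ (l : ℤ) ∣ Qi dg P q D v) {j : ℕ} (hj : j ≤ ρ)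
    (hlow : ∀ i < j, vj dg P q c D T χ L i T' g ∈ Fil (n0 + 1))
    (hgood : vj dg P q c D T χ L j T' g - vj dg P q c D T χ L j T' 1 ∈ Fil (n0 + 1)) :
    vj dg P q c D T χ L j T'' g - vj dg P q c D T χ L j T'' 1 ∈ Fil (n0 + 1) := by
  have hQ := A0_q2 (T' := T') (T'' := T'') hl hp𝔪 h2𝔪 hq hD hχ hX h1 hA
  have hrest := rest_mem (T'' := T'') hF hpos hq hD hχ hX h1 hlow
  rw [vj_split h1 h2, vj_one_split hχ h0 hj h2]
  set a := Aj dg P q D χ 0 (T'' \ T') g with ha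
  set a' := Aj dg P q D χ 0 (T'' \ T') 1 with ha'
  set y := vj dg P q c D T χ L j T' g with hy
  set z := vj dg P q c D T χ L j T' 1 with hz
  have hz0 : z ∈ Fil n0 :=
    vj_one_mem hl hp𝔪 h2𝔪 hF hq hD hχ hX h0 hM (fun v hv => hA v (h2 hv)) hj
  have hy0 : y ∈ Fil n0 := by
    have h3 := Submodule.add_mem _ (hF.anti n0 _ hgood) hz0
    rwa [sub_add_cancel] at h3
  obtain ⟨q1, q2, x, x', hx, hx', hxx, -⟩ := hQ
  have h4 : a * y + (∑ x ∈ (antidiagonal j).erase (0, j),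
        Aj dg P q D χ x.1 (T'' \ T') g * vj dg P q c D T χ L x.2 T' g) - a' * z =
      (a - a') * y + a' * (y - z) + ∑ x ∈ (antidiagonal j).erase (0, j),
        Aj dg P q D χ x.1 (T'' \ T') g * vj dg P q c D T χ L x.2 T' g := by ring
  rw [h4]
  refine Submodule.add_mem _ (Submodule.add_mem _ (hF.step n0 y hy0 _ (Subalgebra.sub_mem _ q1 q2)
    ⟨x - x', ?_, hxx⟩) (hF.mul _ _ q2 _ hgood)) hrest
  push_cast
  rw [hx, hx']

include hl hp𝔪 h2𝔪 hF hpos hq hD hχ hX h0 hM in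
open Classical in
/-- the lower coefficients at all levels -/
lemma vj_all {g : X'} {j : ℕ} (hj : j ≤ ρ)
    (hN : ∀ i < j, vj dg P q c D T χ L i (T g) g - vj dg P q c D T χ L i (T g) 1 ∈ Fil (n0 + 1))
    {T' : Finset ι} (h1 : T g ⊆ T') (hA : ∀ v ∈ T', ¬ (l : ℤ) ∣ Qi dg P q D v) :
    ∀ i < j, vj dg P q c D T χ L i T' g ∈ Fil (n0 + 1) := by
  have hlow0 : ∀ i < j, vj dg P q c D T χ L i (T g) g ∈ Fil (n0 + 1) := by
    intro i hi
    have h2 := hN i hi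
    rwa [vj_one_lt hχ h0 (by omega), sub_zero] at h2
  intro i hi
  have h3 := vj_up (T' := T g) (T'' := T') hl hp𝔪 h2𝔪 hF hpos hq hD hχ hX h0 hM subset_rfl h1 hA
    (j := i) (by omega) (fun i' hi' => hlow0 i' (by omega)) (hN i hi)
  rwa [vj_one_lt hχ h0 (by omega), sub_zero] at h3

include hl hp𝔪 h2𝔪 hF hpos hq hD hχ hX h0 hM in
open Classical in
/-- from a level to the smallest one -/
lemma vj_down {g : X'} {j : ℕ} (hj : j ≤ ρ)
    (hN : ∀ i < j, vj dg P q c D T χ L i (T g) g - vj dg P q c D T χ L i (T g) 1 ∈ Fil (n0 + 1))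
    {T' : Finset ι} (h1 : T g ⊆ T') (hA : ∀ v ∈ T', ¬ (l : ℤ) ∣ Qi dg P q D v)
    (hgood : vj dg P q c D T χ L j T' g - vj dg P q c D T χ L j T' 1 ∈ Fil (n0 + 1))
    (hΛ : vj dg P q c D T χ L j (T g) g ∈ Rt (l ^ b))
    (hΛ' : vj dg P q c D T χ L j (T g) 1 ∈ Rt (l ^ b)) :
    vj dg P q c D T χ L j (T g) g - vj dg P q c D T χ L j (T g) 1 ∈ Fil (n0 + 1) := by
  have hlow0 : ∀ i < j, vj dg P q c D T χ L i (T g) g ∈ Fil (n0 + 1) := by
    intro i hi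
    have h2 := hN i hi
    rwa [vj_one_lt hχ h0 (by omega), sub_zero] at h2
  have hQ := A0_q2 (T' := T g) (T'' := T') hl hp𝔪 h2𝔪 hq hD hχ hX subset_rfl hA
  have hrest := rest_mem (T' := T g) (T'' := T') hF hpos hq hD hχ hX subset_rfl hlow0
  rw [vj_split subset_rfl h1, vj_one_split hχ h0 hj h1] at hgood
  set a := Aj dg P q D χ 0 (T' \ T g) g with ha
  set a' := Aj dg P q D χ 0 (T' \ T g) 1 with ha'
  set y := vj dg P q c D T χ L j (T g) g with hy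
  set z := vj dg P q c D T χ L j (T g) 1 with hz
  have hz0 : z ∈ Fil n0 :=
    vj_one_mem hl hp𝔪 h2𝔪 hF hq hD hχ hX h0 hM (fun v hv => hA v (h1 hv)) hj
  obtain ⟨q1, q2, x, x', hx, hx', hxx, hx'm⟩ := hQ
  have hxm : x ∉ 𝔪 := by
    intro h
    apply hx'm
    have h3 := 𝔪.sub_mem h hxx
    rwa [sub_sub_cancel] at h3
  refine hF.unit (n0 + 1) a q1 ⟨x, hx, hxm⟩ _ (Submodule.sub_mem _ hΛ hΛ') ?_
  have h5 := hF.step n0 z hz0 _ (Subalgebra.sub_mem _ q1 q2) ⟨x - x', by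
    push_cast
    rw [hx, hx'], hxx⟩
  have h6 := Submodule.sub_mem _ (Submodule.sub_mem _ hgood hrest) h5
  have h7 : a * (y - z) = a * y + (∑ x ∈ (antidiagonal j).erase (0, j),
        Aj dg P q D χ x.1 (T' \ T g) g * vj dg P q c D T χ L x.2 (T g) g) - a' * z -
      (∑ x ∈ (antidiagonal j).erase (0, j),
        Aj dg P q D χ x.1 (T' \ T g) g * vj dg P q c D T χ L x.2 (T g) g) - (a - a') * z := by
    ring
  rw [h7]
  exact h6

end levels

open Classical in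
/-- **The towers, uniformly, for the order of vanishing.** -/
theorem fun_towerR {l : ℕ} (hl : l.Prime) (b d n r : ℕ) : ∃ L' : ℕ → ℕ,
    ∀ (ι : Type) (dg : ι → ℕ) (_ : ∀ v, dg v ≠ 0) (_ : ∀ n, {v | dg v ≤ n}.Finite)
      (q c D : ℕ) (_ : 0 < q) (P : ι → ℤ[X]) (_ : ∀ v, (P v).coeff 0 = 1)
      (_ : ∀ v, (P v).natDegree ≤ D)
      (X' : Type) [CommGroup X'] (T : X' → Finset ι) (χ : X' → ι → ℂ) (L : X' → ℂ[X]),
      CGf T χ → (∀ g : X', g ^ l ^ b = 1) →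
      (∀ g, (L g : PowerSeries ℂ) * eulerProd dg (fun v =>
        ((tw (P v) (χ g v) (dg v) : ℂ[X]) : PowerSeries ℂ)) = 1) →
      (∀ g, (L g).natDegree ≤ c + D * ∑ v ∈ T g, dg v) →
      (∀ g, ∀ v ∈ T g, ¬ (l : ℤ) ∣ Qi dg P q D v) →
      ∀ ρ ≤ r, (∀ j < ρ, tc q j (L 1) = 0) →
      ∀ M : ℤ, (q : ℂ) ^ c * tc q ρ (L 1) = M → ¬ (l : ℤ) ^ (n + 1) ∣ M →
      RamS d L' (fun x => tc q ρ (L x) ≠ 0) := by
  set e : ℕ := l ^ b with he
  have he0 : 0 < e := pow_pos hl.pos b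
  obtain ⟨𝔪, hmax, hlm⟩ := exists_lam_maxp hl
  have hp𝔪 : 𝔪.IsPrime := hmax.isPrime
  have h2𝔪 : (l : integralClosure ℤ ℂ) ∈ 𝔪 := hlm
  have hLne : Rt e ≠ ⊥ := by
    intro hbot
    have h1 := rt_one e
    rw [hbot, Submodule.mem_bot] at h1
    exact one_ne_zero h1
  obtain ⟨Fil, hF⟩ := filx_exists hl (rt_fg he0) hLne 𝔪 hmax hlm
  have hroot : ∀ ζ : ℂ, ζ ^ e = 1 → ζ ∈ mulR (Rt e) ∧
      ∃ y : integralClosure ℤ ℂ, (y : ℂ) = ζ - 1 ∧ y ∈ 𝔪 := by
    intro ζ hζ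
    refine ⟨rt_root hζ, (⟨ζ, root_int he0 hζ⟩ : integralClosure ℤ ℂ) - 1, rfl, ?_⟩
    exact lam_powp hl 𝔪 hp𝔪 h2𝔪 b _ (Subtype.ext hζ)
  obtain ⟨V, hV⟩ : ∃ V, ((l : ℂ) ^ n) ∉ Fil V := by
    refine hF.sep _ ?_ (pow_ne_zero _ (by exact_mod_cast hl.ne_zero))
    have h4 := rt_int e ((l : ℤ) ^ n)
    push_cast at h4
    exact h4
  obtain ⟨L', -, hL'⟩ := towerS d e he0 hF V hroot
  refine ⟨itL L' (r + 1), fun ι dg hpos hfin q c D hq P hP hD X' _ T χ L hχ hXe hL hdeg hadm ρ hρ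
    h0 M hM hMn => ?_⟩
  have hMV : (M : ℂ) ∉ Fil V := not_deep hl hp𝔪 h2𝔪 hF hV hMn
  have hx0L : (M : ℂ) ∈ Rt e := rt_int e M
  obtain ⟨n0, hn0V, hn0, hn1⟩ : ∃ n0 ≤ V, (M : ℂ) ∈ Fil n0 ∧ (M : ℂ) ∉ Fil (n0 + 1) := by
    have h1 : ∃ V, (M : ℂ) ∉ Fil V := ⟨V, hMV⟩
    have h2 := Nat.find_spec h1
    have h3 : Nat.find h1 ≠ 0 := by
      intro h3
      rw [h3] at h2
      exact h2 ((hF.zero _).2 hx0L)
    have h5 : Nat.find h1 ≤ V := Nat.find_min' h1 hMV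
    obtain ⟨n0, hn0⟩ : ∃ n0, Nat.find h1 = n0 + 1 := ⟨Nat.find h1 - 1, by omega⟩
    refine ⟨n0, by omega, ?_, ?_⟩
    · have h4 := Nat.find_min h1 (m := n0) (by omega)
      rwa [not_not] at h4
    · rwa [hn0] at h2
  have hM0 : (q : ℂ) ^ c * tc q ρ (L 1) ∈ Fil n0 := by rw [hM]; exact hn0
  have hsum : ∀ (j : ℕ) (g : X') (T' : Finset ι), T g ⊆ T' →
      ∑ u ∈ sF dg hfin c D T', (wj dg hfin P q c D j T' u : ℂ) * eF dg hfin c D χ T' u g =
        vj dg P q c D T χ L j T' g := fun j g T' hT =>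
    vj_sum hpos hfin hq hP hD hχ (hL g) (hdeg g) hT j
  have hsum1 : ∀ (j : ℕ) (T' : Finset ι), ∑ u ∈ sF dg hfin c D T',
      (wj dg hfin P q c D j T' u : ℂ) = vj dg P q c D T χ L j T' 1 := by
    intro j T'
    rw [← hsum j 1 T' (by rw [hχ.T1]; exact empty_subset _)]
    refine Finset.sum_congr rfl fun u _ => ?_
    have h1 : eF dg hfin c D χ T' u (1 : X') = 1 := by
      unfold eF
      exact prod_eq_one fun v _ => by rw [hχ.one, one_pow]
    rw [h1, mul_one]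
  have hvL : ∀ (j : ℕ) (g : X') (T' : Finset ι), T g ⊆ T' →
      vj dg P q c D T χ L j T' g ∈ Rt e := by
    intro j g T' hT
    rw [← hsum j g T' hT]
    refine Submodule.sum_mem _ fun u _ => ?_
    have h1 : eF dg hfin c D χ T' u g ∈ mulR (Rt e) := by
      unfold eF
      refine Subalgebra.prod_mem _ fun v hv => Subalgebra.pow_mem _ (rt_root ?_) _
      exact hχ.root g (hXe g) fun h2 => (mem_sdiff.1 hv).2 (hT h2)
    rw [mul_comm]
    exact h1 _ (rt_int e _)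
  -- one stage
  have hstage : ∀ j ≤ ρ, ∀ Y : Subgroup X', (∀ y ∈ Y, ∀ i < j,
      vj dg P q c D T χ L i (T y) y - vj dg P q c D T χ L i (T y) 1 ∈ Fil (n0 + 1)) →
      RamS d L' (fun y : Y => vj dg P q c D T χ L j (T y) y -
        vj dg P q c D T χ L j (T y) 1 ∈ Fil (n0 + 1)) := by
    intro j hj Y hY
    have hLev : Lev (Rt e) (Fil (n0 + 1)) e (sF dg hfin c D)
        (fun T' u (y : Y) => eF dg hfin c D χ T' u (y : X'))
        (fun T' u => (wj dg hfin P q c D j T' u : ℂ)) (fun y : Y => T y)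
        (fun T' => ∀ v ∈ T', ¬ (l : ℤ) ∣ Qi dg P q D v) := by
      refine ⟨fun y => Subtype.ext (hXe y), hχ.T1, fun x y => hχ.supp _ _, fun T' u _ => ?_,
        fun T' u hu g g' hg hg' => ?_,
        fun T' T'' h1 h2 v hv => ?_, fun v hv => absurd hv (notMem_empty v),
        fun T' hT' u hu => rt_int e _, fun T' T'' h1 h2 h3 g hg hgood => ?_⟩
      · unfold eF
        refine prod_eq_one fun v _ => ?_
        have h1 : χ ((1 : Y) : X') v = 1 := hχ.one v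
        rw [h1, one_pow]
      · unfold eF
        rw [← prod_mul_distrib]
        refine prod_congr rfl fun v hv => ?_
        have h1 : v ∉ T' := (mem_sdiff.1 hv).2
        have h2 : χ ((g * g' : Y) : X') v = χ (g : X') v * χ (g' : X') v :=
          hχ.mul g g' v (fun h0 => h1 (hg ((hχ.zero g v).1 h0)))
            (fun h0 => h1 (hg' ((hχ.zero g' v).1 h0)))
        rw [h2, mul_pow]
      · rcases mem_union.1 hv with h3 | h3
        · exact h1 v h3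
        · exact h2 v h3
      · rw [hsum j g T' hg, hsum1] at hgood
        rw [hsum j g T'' (hg.trans h3), hsum1]
        exact vj_up hl hp𝔪 h2𝔪 hF hpos hq hD hχ hXe h0 hM0 hg h3 h2 hj
          (vj_all hl hp𝔪 h2𝔪 hF hpos hq hD hχ hXe h0 hM0 hj (hY g g.2) hg h1) hgood
    refine (hL' n0 hn0V Y (Σ _ : ℕ, ι →₀ ℕ) ι (sF dg hfin c D)
      (fun T' u (y : Y) => eF dg hfin c D χ T' u (y : X'))
      (fun T' u => (wj dg hfin P q c D j T' u : ℂ)) (fun y : Y => T y)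
      (fun T' => ∀ v ∈ T', ¬ (l : ℤ) ∣ Qi dg P q D v) hLev
      (fun T' T'' h1 h2 v hv => h2 v (h1 hv)) fun y => hadm y).mono ?_
    rintro y ⟨T', hT', hST, hgood⟩
    rw [hsum j y T' hST, hsum1] at hgood
    exact vj_down hl hp𝔪 h2𝔪 hF hpos hq hD hχ hXe h0 hM0 hj (hY y y.2) hST hT' hgood
      (hvL j y _ subset_rfl) (hvL j 1 _ (by rw [hχ.T1]; exact empty_subset _))
  have hall : ∀ t ≤ r + 1, RamS d (itL L' t) (fun x => ∀ i, i + (r - ρ) < t →
      vj dg P q c D T χ L i (T x) x - vj dg P q c D T χ L i (T x) 1 ∈ Fil (n0 + 1)) := by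
    intro t
    induction t with
    | zero =>
      intro _
      exact (ramS_true d).mono fun x _ i hi => absurd hi (Nat.not_lt_zero _)
    | succ t ih =>
      intro ht
      have h1 := (ih (by omega)).and_cond (L' := L') (N' := fun x : X' =>
        vj dg P q c D T χ L (t - (r - ρ)) (T x) x -
          vj dg P q c D T χ L (t - (r - ρ)) (T x) 1 ∈ Fil (n0 + 1)) fun Y hY =>
        hstage (t - (r - ρ)) (by omega) Y fun y hy i hi => hY y hy i (by omega)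
      refine h1.mono fun x hx i hi => ?_
      rcases Nat.lt_or_ge (i + (r - ρ)) t with h2 | h2
      · exact hx.1 i h2
      · have h3 : i = t - (r - ρ) := by omega
        rw [h3]
        exact hx.2
  refine (hall (r + 1) le_rfl).mono fun x hx hx0 => ?_
  have h1 := hx ρ (by omega)
  rw [vj_top, hx0, mul_zero, zero_sub] at h1
  have h2 := Submodule.neg_mem _ h1
  rw [neg_neg, vj_one_split hχ h0 le_rfl (empty_subset (T x))] at h2
  have h3 : vj dg P q c D T χ L ρ ∅ (1 : X') = M := by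
    have h4 := vj_top (dg := dg) (P := P) (q := q) (c := c) (D := D) (T := T) (χ := χ) (L := L)
      ρ (1 : X')
    rw [hχ.T1] at h4
    rw [h4]
    unfold NN
    rw [sum_empty, Nat.mul_zero, Nat.add_zero, hM]
  rw [h3] at h2
  obtain ⟨q1, -, y, y', -, hy', -, hym⟩ := A0_q2 (T' := ∅) (T'' := T x) (g := (1 : X')) hl hp𝔪 h2𝔪
    hq hD hχ hXe (by rw [hχ.T1]) (hadm x)
  exact hn1 (hF.unit (n0 + 1) _ q1 ⟨y', hy', hym⟩ _ hx0L h2)

end Pool.Agent.H92F
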